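import Pool.Agent.Helper1.AS.Functional

/-!
# Countability of the exceptional sets
-/

set_option autoImplicit false

open Metric Set Filter Topology Complex

namespace Pool.Agent.Helper1.AS

theorem countable_mv (κ L : Type) [Finite κ] [Field L] [Countable L] :
    Countable (MvPolynomial κ L) := by
  rw [← Cardinal.mk_le_aleph0_iff]
  refine (MvPolynomial.cardinalMk_le_max (σ := κ) (R := L)).trans ?_
  rw [max_le_iff, max_le_iff]
  exact ⟨⟨Cardinal.mk_le_aleph0_iff.2 inferInstance, Cardinal.mk_le_aleph0_iff.2 inferInstance⟩, le_rfl⟩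

open scoped IntermediateField.algebraAdjoinAdjoin in
/-- **Countability.** -/
theorem countable_core (L : Type) [Field L] [Algebra L ℂ] [Countable L] (κ : Type) [Fintype κ] :
    {z : κ → ℂ | (∀ i, ∀ m : ℕ, z i ≠ -m) ∧
      ∀ i, IsAlgebraic (IntermediateField.adjoin L (range z)) (Gamma (z i))}.Countable := by
  classical
  have : Countable (MvPolynomial κ L) := countable_mv κ L
  set A : (κ → List (MvPolynomial κ L)) → κ → ℕ → (κ → ℂ) → ℂ := fun l i j z =>
    MvPolynomial.aeval z ((l i).getD j 0) with hA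
  set dd : (κ → List (MvPolynomial κ L)) → κ → ℕ := fun l i => (l i).length - 1 with hdd
  have hAe : ∀ l i j z, A l i j z = MvPolynomial.eval z (((l i).getD j 0).map (algebraMap L ℂ)) := by
    intro l i j z
    rw [hA]
    simp only
    rw [MvPolynomial.aeval_def, MvPolynomial.eval_map]
  have hcount : ∀ l : κ → List (MvPolynomial κ L), (∀ i, 0 < dd l i) →
      {z | z ∈ Sol (dd l) (A l) ∧ ∀ i, A l i (dd l i) z ≠ 0}.Countable := by
    intro l hl
    have h1 := countable_isolated (Sol (dd l) (A l))
    refine h1.mono ?_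
    rintro z ⟨hz1, hz2⟩
    refine ⟨hz1, isolated hl ?_ ?_ hz1 hz2⟩
    · intro i j
      obtain ⟨N, ⟨e⟩⟩ := Finite.exists_equiv_fin κ
      have h2 : A l i j = fun z => MvPolynomial.eval (fun a : Fin N => z (e.symm a))
          (MvPolynomial.rename e (((l i).getD j 0).map (algebraMap L ℂ))) := by
        ext z
        rw [hAe, MvPolynomial.eval_rename]
        congr 2
        ext k
        simp
      rw [h2]
      exact diff_eval (fun a => by fun_prop) _
    · intro i j
      obtain ⟨N, ⟨e⟩⟩ := Finite.exists_equiv_fin κ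
      have h2 : A l i j = fun z => MvPolynomial.eval (fun a : Fin N => z (e.symm a))
          (MvPolynomial.rename e (((l i).getD j 0).map (algebraMap L ℂ))) := by
        ext z
        rw [hAe, MvPolynomial.eval_rename]
        congr 2
        ext k
        simp
      rw [h2]
      refine PB_eval (fun a => ⟨1, 1, zero_le_one, fun z => ?_⟩) _
      have := norm_le_pi_norm z (e.symm a)
      rw [pow_one, one_mul]
      linarith
  have hU : (⋃ l ∈ {l : κ → List (MvPolynomial κ L) | ∀ i, 0 < dd l i},
      {z | z ∈ Sol (dd l) (A l) ∧ ∀ i, A l i (dd l i) z ≠ 0}).Countable :=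
    Set.Countable.biUnion (Set.to_countable _) fun l hl => hcount l hl
  refine hU.mono ?_
  rintro z ⟨hz1, hz2⟩
  have hex : ∀ i, ∃ (l : List (MvPolynomial κ L)), 0 < l.length - 1 ∧
      MvPolynomial.aeval z (l.getD (l.length - 1) 0) ≠ (0 : ℂ) ∧
      ∑ j ∈ Finset.range (l.length - 1 + 1), MvPolynomial.aeval z (l.getD j 0) * Gamma (z i) ^ j = 0 := by
    intro i
    have h1 : IsAlgebraic (Algebra.adjoin L (range z)) (Gamma (z i)) :=
      (IsFractionRing.isAlgebraic_iff (Algebra.adjoin L (range z))
        (IntermediateField.adjoin L (range z)) ℂ).2 (hz2 i)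
    obtain ⟨p, hp0, hp⟩ := h1
    have hq : ∀ j, ∃ q : MvPolynomial κ L, MvPolynomial.aeval z q = ((p.coeff j : Algebra.adjoin L (range z)) : ℂ) := by
      intro j
      have h3 : ∀ x ∈ Algebra.adjoin L (range z), ∃ q : MvPolynomial κ L, MvPolynomial.aeval z q = x := by
        intro x hx
        rw [Algebra.adjoin_range_eq_range_aeval] at hx
        exact hx
      exact h3 _ (p.coeff j).2
    choose q hq using hq
    have hdeg : 0 < p.natDegree := by
      by_contra h0
      have h0' : p.natDegree = 0 := by omega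
      rw [Polynomial.eq_C_of_natDegree_eq_zero h0'] at hp hp0
      rw [Polynomial.aeval_C] at hp
      apply hp0
      rw [FaithfulSMul.algebraMap_eq_zero_iff] at hp
      rw [hp, map_zero]
    refine ⟨(List.range (p.natDegree + 1)).map q, ?_, ?_, ?_⟩
    · simpa using hdeg
    · simp only [List.length_map, List.length_range, Nat.add_sub_cancel]
      rw [List.getD_eq_getElem _ _ (by simp)]
      simp only [List.getElem_map, List.getElem_range]
      rw [hq]
      intro h
      have : p.leadingCoeff = 0 := Subtype.ext h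
      exact hp0 (Polynomial.leadingCoeff_eq_zero.1 this)
    · simp only [List.length_map, List.length_range, Nat.add_sub_cancel]
      rw [Polynomial.aeval_eq_sum_range] at hp
      rw [← hp]
      apply Finset.sum_congr rfl
      intro j hj
      have hj' := Finset.mem_range.1 hj
      rw [List.getD_eq_getElem _ _ (by simpa using hj')]
      simp only [List.getElem_map, List.getElem_range]
      rw [hq]
      rfl
  choose l hl1 hl2 hl3 using hex
  simp only [mem_iUnion]
  exact ⟨l, hl1, ⟨hz1, hl3⟩, hl2⟩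

theorem alg_mono {F L : Type} [Field F] [Field L] [Algebra F ℂ] [Algebra L ℂ]
    {K₁ : IntermediateField F ℂ} {K₂ : IntermediateField L ℂ} (h : ∀ x ∈ K₁, x ∈ K₂) {y : ℂ}
    (hy : IsAlgebraic K₁ y) : IsAlgebraic K₂ y := by
  obtain ⟨p, hp0, hp⟩ := hy
  let φ : K₁ →+* K₂ :=
    { toFun := fun x => ⟨x.1, h x.1 x.2⟩
      map_one' := rfl
      map_mul' := fun _ _ => rfl
      map_zero' := rfl
      map_add' := fun _ _ => rfl }
  refine ⟨p.map φ, (Polynomial.map_ne_zero_iff φ.injective).2 hp0, ?_⟩
  rw [Polynomial.aeval_def, Polynomial.eval₂_map]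
  rw [Polynomial.aeval_def] at hp
  exact hp

/-- **Fibres.** If the values of `z j` and `Γ(z j)`, `j ∈ J`, are fixed then there are countably many
`z` such that all the `Γ(z i)` are algebraic over `F(z_1, …, z_n, Γ(z_j), j ∈ J)`. -/
theorem countable_fibres (F : Type) [Field F] [Algebra F ℂ] [Countable F] (n : ℕ)
    (J : Finset (Fin n)) (b : Fin n → ℂ) :
    {z : Fin n → ℂ | (∀ i, ∀ m : ℕ, z i ≠ -m) ∧ (∀ j ∈ J, z j = b j) ∧
      ∀ i, IsAlgebraic (IntermediateField.adjoin F (range z ∪ (fun j => Gamma (z j)) '' J))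
        (Gamma (z i))}.Countable := by
  classical
  set S : Set ℂ := range (algebraMap F ℂ) ∪ (b '' J ∪ (fun j => Gamma (b j)) '' J) with hS
  have hSc : S.Countable := (countable_range _).union
    (((Set.to_countable (J : Set (Fin n))).image _).union ((Set.to_countable (J : Set (Fin n))).image _))
  set L : Subfield ℂ := Subfield.closure S with hL
  have hLc : Countable L := by
    rw [← Cardinal.mk_le_aleph0_iff]
    refine (Subfield.cardinalMk_closure_le_max S).trans ?_
    rw [max_le_iff]
    have : Countable S := hSc.to_subtype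
    exact ⟨Cardinal.mk_le_aleph0_iff.2 inferInstance, le_rfl⟩
  have hSL : ∀ x ∈ S, x ∈ L := fun x hx => Subfield.subset_closure hx
  have h1 := countable_core L {i : Fin n // i ∉ J}
  refine Set.MapsTo.countable_of_injOn (f := fun (z : Fin n → ℂ) (i : {i : Fin n // i ∉ J}) => z i.1)
    ?_ ?_ h1
  · rintro z ⟨hz1, hz2, hz3⟩
    refine ⟨fun i m => hz1 i.1 m, fun i => ?_⟩
    refine alg_mono ?_ (hz3 i.1)
    set K₂ := IntermediateField.adjoin L (range fun i : {i : Fin n // i ∉ J} => z i.1) with hK₂
    have hLK : ∀ x ∈ L, x ∈ K₂ := fun x hx => K₂.algebraMap_mem ⟨x, hx⟩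
    intro x hx
    refine IntermediateField.adjoin_induction F (p := fun x _ => x ∈ K₂) ?_ ?_ ?_ ?_ ?_ hx
    · rintro x (⟨j, rfl⟩ | ⟨j, hj, rfl⟩)
      · by_cases hj : j ∈ J
        · rw [hz2 j hj]
          exact hLK _ (hSL _ (Or.inr (Or.inl ⟨j, hj, rfl⟩)))
        · exact IntermediateField.subset_adjoin _ _ ⟨⟨j, hj⟩, rfl⟩
      · simp only
        rw [hz2 j hj]
        exact hLK _ (hSL _ (Or.inr (Or.inr ⟨j, hj, rfl⟩)))
    · intro x
      exact hLK _ (hSL _ (Or.inl ⟨x, rfl⟩))
    · intro x y _ _ hx hy; exact K₂.add_mem hx hy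
    · intro x _ hx; exact K₂.inv_mem hx
    · intro x y _ _ hx hy; exact K₂.mul_mem hx hy
  · rintro z ⟨hz1, hz2, hz3⟩ z' ⟨hz1', hz2', hz3'⟩ h
    ext i
    by_cases hi : i ∈ J
    · rw [hz2 i hi, hz2' i hi]
    · exact congrFun h ⟨i, hi⟩

/-- all values of `Γ` algebraic over the arguments -/
theorem countable_algebraic (F : Type) [Field F] [Algebra F ℂ] [Countable F] (n : ℕ) :
    {z : Fin n → ℂ | (∀ i, ∀ m : ℕ, z i ≠ -m) ∧
      ∀ i, IsAlgebraic (IntermediateField.adjoin F (range z)) (Gamma (z i))}.Countable :=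
  countable_core F (Fin n)

/-- the transcendence degree does not increase only for countably many `z` -/
theorem countable_trdeg (F : Type) [Field F] [Algebra F ℂ] [Countable F] (n : ℕ) :
    {z : Fin n → ℂ | (∀ i, ∀ m : ℕ, z i ≠ -m) ∧
      Algebra.trdeg F (IntermediateField.adjoin F (range z ∪ range fun i => Gamma (z i))) ≤
        Algebra.trdeg F (IntermediateField.adjoin F (range z))}.Countable := by
  refine (countable_algebraic F n).mono ?_
  rintro z ⟨hz1, hz2⟩
  refine ⟨hz1, fun i => ?_⟩
  set K := IntermediateField.adjoin F (range z) with hK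
  set M := IntermediateField.adjoin F (range z ∪ range fun i => Gamma (z i)) with hM
  have hKM : K ≤ M := IntermediateField.adjoin.mono _ _ _ subset_union_left
  let _ : Algebra K M := (IntermediateField.inclusion hKM).toAlgebra
  have : IsScalarTower F K M := IsScalarTower.of_algebraMap_eq fun x => rfl
  have : IsScalarTower K M ℂ := IsScalarTower.of_algebraMap_eq fun x => rfl
  have hadd := _root_.trdeg_add_eq F K (A := M)
  have hfin : Algebra.trdeg F K < Cardinal.aleph0 := by
    have : Algebra.EssFiniteType F K := by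
      rw [IntermediateField.essFiniteType_iff]
      exact IntermediateField.fg_adjoin_of_finite (Set.finite_range z)
    exact trdeg_lt_aleph0 F K
  have h0 : Algebra.trdeg K M = 0 := by
    rw [← hadd] at hz2
    obtain ⟨a, ha⟩ := Cardinal.lt_aleph0.1 hfin
    rw [ha] at hz2
    by_contra hne
    have h1 : (1 : Cardinal) ≤ Algebra.trdeg K M := Cardinal.one_le_iff_ne_zero.2 hne
    have h2 : ((a : Cardinal) + 1) ≤ a := (add_le_add_right h1 _).trans hz2
    have h3 : ((a + 1 : ℕ) : Cardinal.{0}) ≤ (a : ℕ) := by exact_mod_cast h2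
    have h4 : a + 1 ≤ a := Nat.cast_le.1 h3
    omega
  have hal : Algebra.IsAlgebraic K M := trdeg_eq_zero_iff.1 h0
  have h5 : IsAlgebraic K (⟨Gamma (z i), IntermediateField.subset_adjoin _ _ (Or.inr ⟨i, rfl⟩)⟩ : M) :=
    hal.isAlgebraic _
  exact (isAlgebraic_algebraMap_iff (A := ℂ) (FaithfulSMul.algebraMap_injective M ℂ)).2 h5

end Pool.Agent.Helper1.AS
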