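import Mathlib
import Pool.Graph.R_seed8.Helper540.Holo

/-!
# Curves on which `k` functions are constant, inside a family of functions of rank larger than `k`
-/

set_option autoImplicit false

open Metric Set Filter Topology

namespace Pool.Agent.Helper1.AS

/-- straightening of one function -/
theorem straighten {E : Type} [NormedAddCommGroup E] [NormedSpace ℂ E] [FiniteDimensional ℂ E]
    {U : Set E} (hU : IsOpen U) {f : E → ℂ} (hf : DifferentiableOn ℂ f U) {x : E} (hx : x ∈ U)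
    (hL : fderiv ℂ f x ≠ 0) :
    ∃ φ : (LinearMap.ker (fderiv ℂ f x).toLinearMap) → E, φ 0 = x ∧
      HasFDerivAt φ (LinearMap.ker (fderiv ℂ f x).toLinearMap).subtypeL 0 ∧
      ∀ᶠ w in 𝓝 (0 : LinearMap.ker (fderiv ℂ f x).toLinearMap), DifferentiableAt ℂ φ w ∧ φ w ∈ U ∧
        f (φ w) = f x := by
  set L := fderiv ℂ f x with hLdef
  obtain ⟨v₀, hv₀⟩ : ∃ v, L v ≠ 0 := by
    by_contra h
    push Not at h
    exact hL (ContinuousLinearMap.ext h)
  set v : E := (L v₀)⁻¹ • v₀ with hv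
  have hLv : L v = 1 := by
    rw [hv, map_smul, smul_eq_mul, inv_mul_cancel₀ hv₀]
  have hfx : HasFDerivAt f L x := (hf.differentiableAt (hU.mem_nhds hx)).hasFDerivAt
  set Ψ : E → E := fun y => y + (f y - L y) • v with hΨ
  have hC1 : ContDiffAt ℂ 1 f x := by
    have := Pool.Agent.Helper540.contDiffOn_of_differentiableOn hU hf 1
    exact (by simpa using this.contDiffAt (hU.mem_nhds hx))
  have hΨC : ContDiffAt ℂ 1 Ψ x :=
    contDiffAt_id.add ((hC1.sub L.contDiff.contDiffAt).smul contDiffAt_const)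
  have hΨd : HasFDerivAt Ψ ((ContinuousLinearEquiv.refl ℂ E : E ≃L[ℂ] E) : E →L[ℂ] E) x := by
    have h1 : HasFDerivAt Ψ (ContinuousLinearMap.id ℂ E + ((L - L).smulRight v)) x :=
      (hasFDerivAt_id x).add ((hfx.sub L.hasFDerivAt).smul_const v)
    convert! h1 using 1
    ext y
    simp
  have hLΨ : ∀ y, L (Ψ y) = f y := by
    intro y
    simp only [hΨ, map_add, map_smul, hLv, smul_eq_mul, mul_one]
    ring
  set Φ : E → E := hΨC.localInverse hΨd one_ne_zero with hΦ
  have hΦC : ContDiffAt ℂ 1 Φ (Ψ x) := hΨC.to_localInverse hΨd one_ne_zero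
  have hΦx : Φ (Ψ x) = x := hΨC.localInverse_apply_image hΨd one_ne_zero
  have hstrict := hΨC.hasStrictFDerivAt' hΨd one_ne_zero
  have hΦd : HasFDerivAt Φ (((ContinuousLinearEquiv.refl ℂ E : E ≃L[ℂ] E).symm : E ≃L[ℂ] E) : E →L[ℂ] E)
      (Ψ x) := hstrict.to_localInverse.hasFDerivAt
  have hright : ∀ᶠ y in 𝓝 (Ψ x), Ψ (Φ y) = y := hstrict.eventually_right_inverse
  set K := LinearMap.ker L.toLinearMap with hK
  set τ : K → E := fun w => Ψ x + (w : E) with hτ
  have hτc : Continuous τ := by fun_prop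
  have hτ0 : τ 0 = Ψ x := by simp [hτ]
  have hτt : Tendsto τ (𝓝 0) (𝓝 (Ψ x)) := hτc.tendsto' _ _ hτ0
  have hτd : ∀ w, HasFDerivAt τ K.subtypeL w := fun w => K.subtypeL.hasFDerivAt.const_add _
  refine ⟨fun w => Φ (τ w), by simp [hτ0, hΦx], ?_, ?_⟩
  · have h1 : HasFDerivAt Φ (ContinuousLinearMap.id ℂ E) (τ 0) := by
      rw [hτ0]; exact hΦd
    have h := h1.comp 0 (hτd 0)
    rw [ContinuousLinearMap.id_comp] at h
    exact h
  · have h1 : ∀ᶠ y in 𝓝 (Ψ x), DifferentiableAt ℂ Φ y := by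
      have := hΦC.eventually (by simp)
      filter_upwards [this] with y hy
      exact hy.differentiableAt one_ne_zero
    have h2 : ∀ᶠ y in 𝓝 (Ψ x), Φ y ∈ U := by
      apply hΦd.continuousAt.eventually_mem
      rw [hΦx]
      exact hU.mem_nhds hx
    filter_upwards [hτt.eventually h1, hτt.eventually h2, hτt.eventually hright] with w hw1 hw2 hw3
    refine ⟨?_, hw2, ?_⟩
    · exact DifferentiableAt.comp w hw1 (hτd w).differentiableAt
    · rw [← hLΨ, hw3]
      have : L (w : E) = 0 := w.2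
      rw [hτ]
      simp only [map_add, this, add_zero]
      rw [hLΨ]

theorem finrank_comap_subtype {E : Type} [AddCommGroup E] [Module ℂ E] [FiniteDimensional ℂ E]
    (L : E →ₗ[ℂ] ℂ) (T : Submodule ℂ E) :
    Module.finrank ℂ T ≤ Module.finrank ℂ (T.comap (LinearMap.ker L).subtype) + 1 := by
  have h1 : Module.finrank ℂ (LinearMap.ker (L.domRestrict T)) + 1 ≥ Module.finrank ℂ T := by
    have h2 := LinearMap.finrank_range_add_finrank_ker (L.domRestrict T)
    have h3 : Module.finrank ℂ (LinearMap.range (L.domRestrict T)) ≤ 1 := by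
      have := Submodule.finrank_le (LinearMap.range (L.domRestrict T))
      simpa using this
    omega
  have h2 : Module.finrank ℂ (LinearMap.ker (L.domRestrict T)) ≤
      Module.finrank ℂ (T.comap (LinearMap.ker L).subtype) := by
    let ψ : LinearMap.ker (L.domRestrict T) →ₗ[ℂ] T.comap (LinearMap.ker L).subtype :=
      { toFun := fun w => ⟨⟨w.1.1, w.2⟩, w.1.2⟩
        map_add' := fun _ _ => rfl
        map_smul' := fun _ _ => rfl }
    apply LinearMap.finrank_le_finrank_of_injective (f := ψ)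
    intro w w' h
    have h3 : w.1.1 = w'.1.1 := congrArg (fun u => u.1.1) h
    exact Subtype.ext (Subtype.ext h3)
  omega

/-- the derivatives are jointly injective on `T` in a neighbourhood -/
theorem injective_near {E : Type} [NormedAddCommGroup E] [NormedSpace ℂ E] [FiniteDimensional ℂ E]
    {n : ℕ} {U : Set E} (hU : IsOpen U) {f : Fin n → E → ℂ} (hf : ∀ i, DifferentiableOn ℂ (f i) U)
    {x : E} (hx : x ∈ U) (T : Submodule ℂ E)
    (hT : ∀ v ∈ T, (∀ i, fderiv ℂ (f i) x v = 0) → v = 0) :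
    ∀ᶠ y in 𝓝 x, ∀ v ∈ T, (∀ i, fderiv ℂ (f i) y v = 0) → v = 0 := by
  have hc : ∀ i, ContinuousAt (fderiv ℂ (f i)) x := by
    intro i
    have h1 : ContDiffOn ℂ 1 (f i) U := by
      simpa using Pool.Agent.Helper540.contDiffOn_of_differentiableOn hU (hf i) 1
    exact (h1.continuousOn_fderiv_of_isOpen hU le_rfl).continuousAt (hU.mem_nhds hx)
  set A : T →L[ℂ] (Fin n → ℂ) := (ContinuousLinearMap.pi fun i => fderiv ℂ (f i) x).comp T.subtypeL
    with hA
  have hinj : Function.Injective A := by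
    rw [injective_iff_map_eq_zero]
    intro v hv
    have := hT v.1 v.2 fun i => congrFun hv i
    exact Subtype.ext this
  obtain ⟨c, hc0, hcA⟩ := A.toLinearMap.exists_antilipschitzWith (LinearMap.ker_eq_bot.2 hinj)
  have hc1 : (0 : ℝ) < c := by exact_mod_cast hc0
  have hev : ∀ᶠ y in 𝓝 x, ∀ i, ‖fderiv ℂ (f i) y - fderiv ℂ (f i) x‖ < (c : ℝ)⁻¹ / 2 := by
    rw [eventually_all]
    intro i
    have h1 := tendsto_iff_norm_sub_tendsto_zero.1 (hc i).tendsto
    exact h1.eventually_lt_const (by positivity)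
  filter_upwards [hev] with y hy v hv h0
  by_contra hne
  have h2 := hcA.le_mul_dist ⟨v, hv⟩ 0
  rw [dist_zero_right, map_zero, dist_zero_right] at h2
  have h5 : 0 < ‖v‖ := norm_pos_iff.2 hne
  have h3 : ‖A.toLinearMap ⟨v, hv⟩‖ ≤ (c : ℝ)⁻¹ / 2 * ‖v‖ := by
    rw [pi_norm_le_iff_of_nonneg (by positivity)]
    intro i
    have h4 : A.toLinearMap ⟨v, hv⟩ i = -((fderiv ℂ (f i) y - fderiv ℂ (f i) x) v) := by
      show fderiv ℂ (f i) x v = _
      rw [sub_apply, h0 i]
      ring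
    rw [h4, norm_neg]
    exact ((fderiv ℂ (f i) y - fderiv ℂ (f i) x).le_opNorm v).trans
      (mul_le_mul_of_nonneg_right (hy i).le h5.le)
  have h6 : ‖(⟨v, hv⟩ : T)‖ = ‖v‖ := rfl
  rw [h6] at h2
  have h7 : (c : ℝ) * ‖A.toLinearMap ⟨v, hv⟩‖ ≤ c * ((c : ℝ)⁻¹ / 2 * ‖v‖) :=
    mul_le_mul_of_nonneg_left h3 hc1.le
  have h8 : (c : ℝ) * ((c : ℝ)⁻¹ / 2 * ‖v‖) = ‖v‖ / 2 := by field_simp
  linarith

/-- **A curve.** -/
theorem exists_curve (k : ℕ) : ∀ (E : Type) [NormedAddCommGroup E] [NormedSpace ℂ E]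
    [FiniteDimensional ℂ E] (n : ℕ) (U : Set E) (f : Fin n → E → ℂ) (x : E) (T : Submodule ℂ E)
    (g : Fin k → Fin n), IsOpen U → (∀ i, DifferentiableOn ℂ (f i) U) → x ∈ U →
    (∀ v ∈ T, (∀ i, fderiv ℂ (f i) x v = 0) → v = 0) → k < Module.finrank ℂ T →
    ∃ (γ : ℂ → E) (i₀ : Fin n) (c : ℂ), γ 0 ∈ U ∧ ContinuousAt γ 0 ∧
      (∀ᶠ t in 𝓝 (0 : ℂ), γ t ∈ U ∧ ∀ a, f (g a) (γ t) = f (g a) (γ 0)) ∧ c ≠ 0 ∧
      HasDerivAt (fun t => f i₀ (γ t)) c 0 := by
  induction k with
  | zero =>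
    intro E _ _ _ n U f x T g hU hf hx hT hk
    have : Nontrivial T := Module.nontrivial_of_finrank_pos hk
    obtain ⟨v, hv⟩ := exists_ne (0 : T)
    obtain ⟨i₀, hi₀⟩ : ∃ i, fderiv ℂ (f i) x v ≠ 0 := by
      by_contra h
      push Not at h
      exact hv (Subtype.ext (hT v.1 v.2 h))
    have hγ : HasDerivAt (fun t : ℂ => x + t • (v : E)) (v : E) 0 := by
      have h := ((hasDerivAt_id (0 : ℂ)).smul_const (v : E)).const_add x
      simpa using h
    have hγ0 : x + (0 : ℂ) • (v : E) = x := by simp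
    refine ⟨fun t => x + t • (v : E), i₀, _, ?_, hγ.continuousAt, ?_, hi₀, ?_⟩
    · simpa [hγ0] using hx
    · have h1 : ∀ᶠ t in 𝓝 (0 : ℂ), x + t • (v : E) ∈ U :=
        hγ.continuousAt.eventually_mem (by rw [hγ0]; exact hU.mem_nhds hx)
      filter_upwards [h1] with t ht
      exact ⟨ht, fun a => a.elim0⟩
    · have h1 : HasFDerivAt (f i₀) (fderiv ℂ (f i₀) x) (x + (0 : ℂ) • (v : E)) := by
        rw [hγ0]
        exact ((hf i₀).differentiableAt (hU.mem_nhds hx)).hasFDerivAt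
      exact h1.comp_hasDerivAt 0 hγ
  | succ k ih =>
    intro E _ _ _ n U f x T g hU hf hx hT hk
    have hnear := injective_near hU hf hx T hT
    by_cases hz : ∀ᶠ y in 𝓝 x, fderiv ℂ (f (g 0)) y = 0
    · -- the first function is constant near `x`
      obtain ⟨r, hr, hb⟩ := Metric.eventually_nhds_iff_ball.1 (hz.and (hU.mem_nhds hx))
      have hconst : ∀ y ∈ ball x r, f (g 0) y = f (g 0) x := by
        intro y hy
        apply (convex_ball x r).is_const_of_fderivWithin_eq_zero (𝕜 := ℂ) (f := f (g 0)) _ _ hy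
          (mem_ball_self hr)
        · exact (hf (g 0)).mono fun z hz => (hb z hz).2
        · intro z hz
          rw [fderivWithin_of_isOpen isOpen_ball hz]
          exact (hb z hz).1
      obtain ⟨γ, i₀, c, h1, h2, h3, h4, h5⟩ := ih E n (ball x r) f x T (fun a => g a.succ) isOpen_ball
        (fun i => (hf i).mono fun z hz => (hb z hz).2) (mem_ball_self hr) hT (by omega)
      refine ⟨γ, i₀, c, (hb _ h1).2, h2, ?_, h4, h5⟩
      filter_upwards [h3] with t ht
      refine ⟨(hb _ ht.1).2, fun a => ?_⟩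
      refine Fin.cases ?_ (fun b => ?_) a
      · rw [hconst _ ht.1, hconst _ h1]
      · exact ht.2 b
    · -- straighten the first function at a nearby point
      obtain ⟨x₁, hx₁0, hx₁T, hx₁U⟩ : ∃ y, fderiv ℂ (f (g 0)) y ≠ 0 ∧
          (∀ v ∈ T, (∀ i, fderiv ℂ (f i) y v = 0) → v = 0) ∧ y ∈ U := by
        have h1 : ∃ᶠ y in 𝓝 x, fderiv ℂ (f (g 0)) y ≠ 0 := by
          rw [Filter.Frequently]
          simpa using hz
        obtain ⟨y, hy1, hy2⟩ := (h1.and_eventually (hnear.and (hU.mem_nhds hx))).exists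
        exact ⟨y, hy1, hy2.1, hy2.2⟩
      obtain ⟨φ, hφ0, hφd, hφe⟩ := straighten hU (hf (g 0)) hx₁U hx₁0
      obtain ⟨r, hr, hb⟩ := Metric.eventually_nhds_iff_ball.1 hφe
      have hfd : ∀ i, DifferentiableOn ℂ (fun w => f i (φ w)) (ball 0 r) := by
        intro i w hw
        obtain ⟨h1, h2, -⟩ := hb w hw
        have h3 : DifferentiableAt ℂ (f i) (φ w) := (hf i).differentiableAt (hU.mem_nhds h2)
        exact (DifferentiableAt.comp w h3 h1).differentiableWithinAt
      have hder : ∀ i (w : LinearMap.ker (fderiv ℂ (f (g 0)) x₁).toLinearMap), fderiv ℂ (fun w => f i (φ w)) 0 w =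
          fderiv ℂ (f i) x₁ (w : E) := by
        intro i w
        have h1 : HasFDerivAt (f i) (fderiv ℂ (f i) x₁) (φ 0) := by
          rw [hφ0]
          exact ((hf i).differentiableAt (hU.mem_nhds hx₁U)).hasFDerivAt
        have h2 : HasFDerivAt (fun w => f i (φ w)) ((fderiv ℂ (f i) x₁).comp
            (LinearMap.ker (fderiv ℂ (f (g 0)) x₁).toLinearMap).subtypeL) 0 := h1.comp 0 hφd
        rw [h2.fderiv]
        rfl
      obtain ⟨γ, i₀, c, h1, h2, h3, h4, h5⟩ := ih
        (LinearMap.ker (fderiv ℂ (f (g 0)) x₁).toLinearMap) n (ball 0 r)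
        (fun i w => f i (φ w)) 0 (T.comap (LinearMap.ker (fderiv ℂ (f (g 0)) x₁).toLinearMap).subtype) (fun a => g a.succ) isOpen_ball hfd
        (mem_ball_self hr) (fun w hw h0 => by
          have := hx₁T w.1 hw fun i => by rw [← hder i w]; exact h0 i
          exact Subtype.ext this) (by
          have := finrank_comap_subtype (fderiv ℂ (f (g 0)) x₁).toLinearMap T
          omega)
      refine ⟨fun t => φ (γ t), i₀, c, (hb _ h1).2.1, ?_, ?_, h4, h5⟩
      · exact ContinuousAt.comp (f := γ) (hb _ h1).1.continuousAt h2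
      · filter_upwards [h3] with t ht
        refine ⟨(hb _ ht.1).2.1, fun a => ?_⟩
        refine Fin.cases ?_ (fun b => ?_) a
        · rw [(hb _ ht.1).2.2, (hb _ h1).2.2]
        · exact ht.2 b

end Pool.Agent.Helper1.AS
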