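import Mathlib

/-!
# Zeros of a holomorphic function in a disc, with sums and products over them
-/

set_option autoImplicit false

open Metric Set Filter Topology Complex

namespace Pool.Agent.Helper1.AS

/-- the zeros in a closed disc are finite in number -/
theorem finite_zeros {F : ℂ → ℂ} {ρ : ℝ} (hρ : 0 < ρ) (hF : AnalyticOnNhd ℂ F (closedBall 0 ρ))
    (hS : ∀ z ∈ sphere (0 : ℂ) ρ, F z ≠ 0) : {z ∈ closedBall (0 : ℂ) ρ | F z = 0}.Finite := by
  by_contra hinf
  obtain ⟨z₀, hz₀, hacc⟩ := Set.Infinite.exists_accPt_of_subset_isCompact hinf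
    (isCompact_closedBall (0 : ℂ) ρ) (fun z hz => hz.1)
  have h1 : ∃ᶠ z in 𝓝[≠] z₀, F z = 0 := by
    rw [accPt_iff_frequently_nhdsNE] at hacc
    exact hacc.mono fun z hz => hz.2
  have h2 := hF.eqOn_zero_of_preconnected_of_frequently_eq_zero
    (convex_closedBall (0 : ℂ) ρ).isPreconnected hz₀ h1
  have h3 : ((ρ : ℝ) : ℂ) ∈ sphere (0 : ℂ) ρ := by
    simp [abs_of_pos hρ]
  exact hS _ h3 (h2 (sphere_subset_closedBall h3))

/-- removing one zero -/
theorem divide_zero {F : ℂ → ℂ} {K : Set ℂ} (hF : AnalyticOnNhd ℂ F K) {a : ℂ} (ha : a ∈ K)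
    (hFa : F a = 0) (hne : ¬ ∀ᶠ z in 𝓝 a, F z = 0) :
    ∃ (n : ℕ) (F₁ : ℂ → ℂ), 0 < n ∧ AnalyticOnNhd ℂ F₁ K ∧ F₁ a ≠ 0 ∧
      ∀ z, F z = (z - a) ^ n * F₁ z := by
  classical
  obtain ⟨n, g, hg, hga, hFg⟩ := ((hF a ha).exists_eventuallyEq_pow_smul_nonzero_iff).2 hne
  have hn : 0 < n := by
    rcases Nat.eq_zero_or_pos n with rfl | h
    · exfalso
      have := hFg.self_of_nhds
      simp only [pow_zero, one_smul] at this
      exact hga (this ▸ hFa)
    · exact h
  refine ⟨n, fun z => if z = a then g a else F z / (z - a) ^ n, hn, ?_, by simpa using hga, ?_⟩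
  · intro z hz
    by_cases hza : z = a
    · subst hza
      refine hg.congr ?_
      filter_upwards [hFg] with w hw
      by_cases hwa : w = z
      · simp [hwa]
      · rw [if_neg hwa, hw, smul_eq_mul, mul_div_cancel_left₀ _ (pow_ne_zero _ (sub_ne_zero.2 hwa))]
    · have h1 : AnalyticAt ℂ (fun z => F z / (z - a) ^ n) z :=
        (hF z hz).div (by fun_prop) (pow_ne_zero _ (sub_ne_zero.2 hza))
      refine h1.congr ?_
      filter_upwards [isOpen_ne.mem_nhds hza] with w hw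
      rw [if_neg hw]
  · intro z
    by_cases hza : z = a
    · subst hza
      simp [hFa, hn.ne']
    · simp only [if_neg hza]
      rw [mul_div_cancel₀ _ (pow_ne_zero _ (sub_ne_zero.2 hza))]

theorem factor_aux {ρ : ℝ} (hρ : 0 < ρ) (m : ℕ) : ∀ F : ℂ → ℂ, AnalyticOnNhd ℂ F (closedBall 0 ρ) →
    (∀ z ∈ sphere (0 : ℂ) ρ, F z ≠ 0) → {z ∈ closedBall (0 : ℂ) ρ | F z = 0}.ncard = m →
    ∃ (l : List ℂ) (h : ℂ → ℂ), (∀ a ∈ l, a ∈ ball (0 : ℂ) ρ) ∧
      AnalyticOnNhd ℂ h (closedBall 0 ρ) ∧ (∀ z ∈ closedBall (0 : ℂ) ρ, h z ≠ 0) ∧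
      ∀ z, F z = (l.map fun a => z - a).prod * h z := by
  induction m with
  | zero =>
    intro F hF hS hc
    have h0 := (Set.ncard_eq_zero (finite_zeros hρ hF hS)).1 hc
    refine ⟨[], F, by simp, hF, fun z hz h => ?_, by simp⟩
    have : z ∈ ({z ∈ closedBall (0 : ℂ) ρ | F z = 0} : Set ℂ) := ⟨hz, h⟩
    rw [h0] at this
    exact this
  | succ m ih =>
    intro F hF hS hc
    have hfin := finite_zeros hρ hF hS
    have hne : ({z ∈ closedBall (0 : ℂ) ρ | F z = 0} : Set ℂ).Nonempty := by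
      rw [← Set.ncard_pos hfin]; omega
    obtain ⟨a, ha, hFa⟩ := hne
    have hnz : ¬ ∀ᶠ z in 𝓝 a, F z = 0 := by
      intro h
      have h2 := hF.eqOn_zero_of_preconnected_of_eventuallyEq_zero
        (convex_closedBall (0 : ℂ) ρ).isPreconnected ha h
      have h3 : ((ρ : ℝ) : ℂ) ∈ sphere (0 : ℂ) ρ := by
        simp [abs_of_pos hρ]
      exact hS _ h3 (h2 (sphere_subset_closedBall h3))
    obtain ⟨n, F₁, hn, hF₁, hF₁a, hFF⟩ := divide_zero hF ha hFa hnz
    have hab : a ∈ ball (0 : ℂ) ρ := by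
      by_contra h
      refine hS a ?_ hFa
      simp only [mem_closedBall, mem_ball, not_lt, mem_sphere] at *
      exact le_antisymm ha h
    have hset : ({z ∈ closedBall (0 : ℂ) ρ | F₁ z = 0} : Set ℂ) =
        {z ∈ closedBall (0 : ℂ) ρ | F z = 0} \ {a} := by
      ext z
      simp only [Set.mem_ofPred_eq, Set.mem_sdiff, mem_singleton_iff]
      constructor
      · rintro ⟨h1, h2⟩
        refine ⟨⟨h1, by rw [hFF, h2, mul_zero]⟩, ?_⟩
        rintro rfl
        exact hF₁a h2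
      · rintro ⟨⟨h1, h2⟩, h3⟩
        refine ⟨h1, ?_⟩
        rw [hFF] at h2
        exact (mul_eq_zero.1 h2).resolve_left (pow_ne_zero _ (sub_ne_zero.2 h3))
    have hcard : ({z ∈ closedBall (0 : ℂ) ρ | F₁ z = 0} : Set ℂ).ncard = m := by
      have ham : a ∈ ({z ∈ closedBall (0 : ℂ) ρ | F z = 0} : Set ℂ) := ⟨ha, hFa⟩
      rw [hset, Set.ncard_sdiff_singleton_of_mem ham, hc]
      omega
    obtain ⟨l, h, hl, hh, hh0, hprod⟩ := ih F₁ hF₁ (fun z hz h0 => hS z hz (by rw [hFF, h0, mul_zero])) hcard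
    refine ⟨List.replicate n a ++ l, h, ?_, hh, hh0, ?_⟩
    · intro b hb
      rcases List.mem_append.1 hb with hb | hb
      · rw [List.eq_of_mem_replicate hb]; exact hab
      · exact hl b hb
    · intro z
      rw [hFF, hprod]
      simp [mul_assoc]

/-- **Factorisation** of a function holomorphic near a closed disc, without zeros on the circle. -/
theorem factor {ρ : ℝ} (hρ : 0 < ρ) {F : ℂ → ℂ} (hF : AnalyticOnNhd ℂ F (closedBall 0 ρ))
    (hS : ∀ z ∈ sphere (0 : ℂ) ρ, F z ≠ 0) :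
    ∃ (d : ℕ) (ζ : Fin d → ℂ) (h : ℂ → ℂ), (∀ j, ζ j ∈ ball (0 : ℂ) ρ) ∧
      AnalyticOnNhd ℂ h (closedBall 0 ρ) ∧ (∀ z ∈ closedBall (0 : ℂ) ρ, h z ≠ 0) ∧
      ∀ z, F z = (∏ j, (z - ζ j)) * h z := by
  obtain ⟨l, h, h1, h2, h3, h4⟩ := factor_aux hρ _ F hF hS rfl
  refine ⟨l.length, fun j => l.get j, h, fun j => h1 _ (List.get_mem _ _), h2, h3, fun z => ?_⟩
  rw [h4, ← List.prod_ofFn]
  congr 2
  conv_lhs => rw [← List.ofFn_get l, List.map_ofFn]
  rfl

/-- **Newton sums** as integrals -/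
theorem integral_eq {ρ : ℝ} (hρ : 0 < ρ) {F : ℂ → ℂ} {d : ℕ} {ζ : Fin d → ℂ} {h : ℂ → ℂ}
    (hζ : ∀ j, ζ j ∈ ball (0 : ℂ) ρ) (hh : AnalyticOnNhd ℂ h (closedBall 0 ρ))
    (hh0 : ∀ z ∈ closedBall (0 : ℂ) ρ, h z ≠ 0) (hF : ∀ z, F z = (∏ j, (z - ζ j)) * h z)
    {g : ℂ → ℂ} (hg : AnalyticOnNhd ℂ g (closedBall 0 ρ)) :
    (∮ z in C(0, ρ), g z * (deriv F z / F z)) = 2 * Real.pi * I * ∑ j, g (ζ j) := by
  have hne : ∀ z ∈ sphere (0 : ℂ) ρ, ∀ j, z - ζ j ≠ 0 := by
    intro z hz j h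
    have h1 := hζ j
    rw [← sub_eq_zero.1 h] at h1
    simp only [mem_sphere, dist_zero_right, mem_ball] at hz h1
    linarith
  have hlog : ∀ z ∈ sphere (0 : ℂ) ρ, deriv F z / F z = (∑ j, (z - ζ j)⁻¹) + deriv h z / h z := by
    intro z hz
    have hzc := sphere_subset_closedBall hz
    have e1 : F = fun z => (∏ j, (z - ζ j)) * h z := funext hF
    have h2 : ∏ j, (z - ζ j) ≠ 0 := Finset.prod_ne_zero_iff.2 fun j _ => hne z hz j
    have h3 : logDeriv F z = logDeriv (fun z => ∏ j, (z - ζ j)) z + logDeriv h z := by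
      rw [e1]
      exact logDeriv_mul z h2 (hh0 z hzc) (by fun_prop) (hh z hzc).differentiableAt
    have h4 : logDeriv (fun z => ∏ j, (z - ζ j)) z = ∑ j, logDeriv (fun z => z - ζ j) z := by
      apply logDeriv_prod
      · exact fun j _ => hne z hz j
      · intro j _; fun_prop
    have h5 : ∀ j, logDeriv (fun z => z - ζ j) z = (z - ζ j)⁻¹ := by
      intro j
      simp [logDeriv]
    rw [h4] at h3
    simp only [h5] at h3
    simpa [logDeriv] using h3
  have hcong : (∮ z in C(0, ρ), g z * (deriv F z / F z)) =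
      ∮ z in C(0, ρ), ((∑ j, (z - ζ j)⁻¹ • g z) + g z * (deriv h z / h z)) := by
    apply circleIntegral.integral_congr hρ.le
    intro z hz
    simp only
    rw [hlog z hz, mul_add, Finset.mul_sum]
    congr 1
    exact Finset.sum_congr rfl fun j _ => by rw [smul_eq_mul, mul_comm]
  have hgd : DifferentiableOn ℂ g (closedBall 0 ρ) := hg.differentiableOn
  have hcs : ∀ j, ContinuousOn (fun z => (z - ζ j)⁻¹ • g z) (sphere 0 ρ) := fun j =>
    (ContinuousOn.inv₀ (f := fun z => z - ζ j) (by fun_prop) fun z hz => hne z hz j).smul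
      (hgd.mono sphere_subset_closedBall).continuousOn
  have hci : ∀ j, CircleIntegrable (fun z => (z - ζ j)⁻¹ • g z) 0 ρ := fun j =>
    (hcs j).circleIntegrable hρ.le
  have hr : DifferentiableOn ℂ (fun z => g z * (deriv h z / h z)) (closedBall 0 ρ) := by
    intro z hz
    exact ((hg z hz).differentiableAt.mul ((hh z hz).deriv.differentiableAt.div
      (hh z hz).differentiableAt (hh0 z hz))).differentiableWithinAt
  rw [hcong, circleIntegral.integral_add]
  · rw [circleIntegral.integral_fun_sum (fun j _ => hci j)]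
    have h0 : (∮ z in C(0, ρ), g z * (deriv h z / h z)) = 0 := by
      apply Complex.circleIntegral_eq_zero_of_differentiable_on_off_countable hρ.le
        Set.countable_empty hr.continuousOn
      intro z hz
      have hz' := ball_subset_closedBall hz.1
      exact (hg z hz').differentiableAt.mul ((hh z hz').deriv.differentiableAt.div
        (hh z hz').differentiableAt (hh0 z hz'))
    rw [h0, add_zero, Finset.mul_sum]
    apply Finset.sum_congr rfl
    intro j _
    have := hgd.circleIntegral_sub_inv_smul (hζ j)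
    rw [this, smul_eq_mul]
  · apply ContinuousOn.circleIntegrable hρ.le
    exact continuousOn_finsetSum _ fun j _ => hcs j
  · exact (hr.continuousOn.mono sphere_subset_closedBall).circleIntegrable hρ.le

end Pool.Agent.Helper1.AS
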