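import Pool.Agent.Helper1.AS.GammaIso
import Pool.Agent.Helper1.AS.Curve

/-!
# At least `r` of the functions `Γ(f_i)` are algebraically independent over `ℂ(f_1, …, f_n)`
-/

set_option autoImplicit false

open Metric Set Filter Topology Complex

namespace Pool.Agent.Helper1.AS

section Poly

/-- evaluation of a polynomial with polynomial coefficients -/
noncomputable def ev {n k : ℕ} (z : Fin n → ℂ) (w : Fin k → ℂ)
    (P : MvPolynomial (Fin k) (MvPolynomial (Fin n) ℂ)) : ℂ :=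
  P.eval₂ (MvPolynomial.eval z) w

theorem ev_finSucc {n k : ℕ} (z : Fin n → ℂ) (w : Fin k → ℂ) (y : ℂ)
    (P : MvPolynomial (Fin (k + 1)) (MvPolynomial (Fin n) ℂ)) :
    ev z (Fin.cons y w) P = ∑ j ∈ Finset.range ((MvPolynomial.finSuccEquiv _ k P).natDegree + 1),
      ev z w ((MvPolynomial.finSuccEquiv _ k P).coeff j) * y ^ j := by
  have h1 : MvPolynomial.eval₂Hom (MvPolynomial.eval z) (Fin.cons y w : Fin (k + 1) → ℂ) =
      (Polynomial.eval₂RingHom (MvPolynomial.eval₂Hom (MvPolynomial.eval z) w) y).comp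
        (MvPolynomial.finSuccEquiv (MvPolynomial (Fin n) ℂ) k).toRingEquiv.toRingHom := by
    apply MvPolynomial.ringHom_ext
    · intro r
      simp [MvPolynomial.finSuccEquiv_apply]
    · intro i
      refine Fin.cases ?_ (fun j => ?_) i
      · simp [MvPolynomial.finSuccEquiv_apply]
      · simp [MvPolynomial.finSuccEquiv_apply]
  have h2 := RingHom.congr_fun h1 P
  have h3 : ev z (Fin.cons y w) P = (Polynomial.eval₂ (MvPolynomial.eval₂Hom (MvPolynomial.eval z) w) y
      (MvPolynomial.finSuccEquiv _ k P)) := h2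
  rw [h3, Polynomial.eval₂_eq_sum_range]
  rfl

theorem ev_eq {n k : ℕ} (z : Fin n → ℂ) (w : Fin k → ℂ)
    (P : MvPolynomial (Fin k) (MvPolynomial (Fin n) ℂ)) :
    ev z w P = ∑ s ∈ P.support, MvPolynomial.eval z (P.coeff s) * ∏ a, w a ^ s a :=
  MvPolynomial.eval₂_eq' _ _ _

theorem PB_eval {X : Type} [NormedAddCommGroup X] {n : ℕ} {e : X → Fin n → ℂ}
    (he : ∀ i, PB fun x => e x i) (p : MvPolynomial (Fin n) ℂ) :
    PB fun x => MvPolynomial.eval (e x) p := by
  induction p using MvPolynomial.induction_on with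
  | C a => simpa using PB.const a
  | add p q hp hq => simpa using hp.add hq
  | mul_X p i hp => simpa using hp.mul (he i)

theorem PB_ev {X : Type} [NormedAddCommGroup X] {n k : ℕ} {e : X → Fin n → ℂ}
    (he : ∀ i, PB fun x => e x i) (w : Fin k → ℂ)
    (P : MvPolynomial (Fin k) (MvPolynomial (Fin n) ℂ)) : PB fun x => ev (e x) w P := by
  simp only [ev_eq]
  exact PB.sum _ fun s _ => (PB_eval he _).mul (PB.const _)

theorem diff_eval {X : Type} [NormedAddCommGroup X] [NormedSpace ℂ X] {n : ℕ} {e : X → Fin n → ℂ}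
    (he : ∀ i, Differentiable ℂ fun x => e x i) (p : MvPolynomial (Fin n) ℂ) :
    Differentiable ℂ fun x => MvPolynomial.eval (e x) p := by
  induction p using MvPolynomial.induction_on with
  | C a => simp
  | add p q hp hq =>
    simp only [map_add]
    exact hp.add hq
  | mul_X p i hp =>
    simp only [map_mul, MvPolynomial.eval_X]
    exact hp.mul (he i)

theorem diff_ev {X : Type} [NormedAddCommGroup X] [NormedSpace ℂ X] {n k : ℕ} {e : X → Fin n → ℂ}
    (he : ∀ i, Differentiable ℂ fun x => e x i) (w : Fin k → ℂ)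
    (P : MvPolynomial (Fin k) (MvPolynomial (Fin n) ℂ)) : Differentiable ℂ fun x => ev (e x) w P := by
  simp only [ev_eq]
  exact Differentiable.fun_sum fun s _ => (diff_eval he _).mul_const _

theorem an_eval {X : Type} [NormedAddCommGroup X] [NormedSpace ℂ X] {n : ℕ} {e : Fin n → X → ℂ}
    {Ω : Set X} (he : ∀ i, AnalyticOnNhd ℂ (e i) Ω) (p : MvPolynomial (Fin n) ℂ) :
    AnalyticOnNhd ℂ (fun x => MvPolynomial.eval (fun i => e i x) p) Ω := by
  induction p using MvPolynomial.induction_on with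
  | C a => simpa using analyticOnNhd_const
  | add p q hp hq =>
    simp only [map_add]
    exact hp.add hq
  | mul_X p i hp =>
    simp only [map_mul, MvPolynomial.eval_X]
    exact hp.mul (he i)

end Poly

section

variable {E : Type} [NormedAddCommGroup E] [NormedSpace ℂ E]

/-- finitely many analytic functions which are not identically zero are not zero at a common
point of every open set -/
theorem exists_common {Ω : Set E} (hc : IsPreconnected Ω) {m : ℕ}
    (h : Fin m → E → ℂ) (hh : ∀ i, AnalyticOnNhd ℂ (h i) Ω) (hne : ∀ i, ∃ x ∈ Ω, h i x ≠ 0) :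
    ∀ W : Set E, IsOpen W → W.Nonempty → W ⊆ Ω → ∃ x ∈ W, ∀ i, h i x ≠ 0 := by
  induction m with
  | zero =>
    intro W _ hW _
    obtain ⟨x, hx⟩ := hW
    exact ⟨x, hx, fun i => i.elim0⟩
  | succ m ih =>
    intro W hWo hW hWΩ
    obtain ⟨x, hx, hx0⟩ : ∃ x ∈ W, h 0 x ≠ 0 := by
      by_contra hcon
      push Not at hcon
      obtain ⟨y, hy⟩ := hW
      have h1 : h 0 =ᶠ[𝓝 y] 0 := by
        filter_upwards [hWo.mem_nhds hy] with x hx using hcon x hx
      obtain ⟨x, hx, hx0⟩ := hne 0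
      exact hx0 ((hh 0).eqOn_zero_of_preconnected_of_eventuallyEq_zero hc (hWΩ hy) h1 hx)
    have hWo' : IsOpen (W ∩ h 0 ⁻¹' {0}ᶜ) :=
      ((hh 0).continuousOn.mono hWΩ).isOpen_inter_preimage hWo isOpen_compl_singleton
    obtain ⟨x', hx', hx'0⟩ := ih (fun i => h i.succ) (fun i => hh i.succ) (fun i => hne i.succ)
      (W ∩ h 0 ⁻¹' {0}ᶜ) hWo' ⟨x, hx, hx0⟩ (inter_subset_left.trans hWΩ)
    refine ⟨x', hx'.1, fun i => ?_⟩
    refine Fin.cases ?_ (fun j => ?_) i
    · exact hx'.2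
    · exact hx'0 j

theorem rG_comp_an {Ω : Set E} {f : E → ℂ} (hf : AnalyticOnNhd ℂ f Ω) :
    AnalyticOnNhd ℂ (fun x => rG (f x)) Ω := fun x hx =>
  (rG_diff.analyticAt (f x)).comp (hf x hx)

theorem rG_eq_zero_iff (z : ℂ) : rG z = 0 ↔ ∃ m : ℕ, z = -m := by
  rw [rG, inv_eq_zero, Gamma_eq_zero_iff]

omit [NormedSpace ℂ E] in
theorem nonconst_pole {Ω : Set E} (hc : IsPreconnected Ω) {f : E → ℂ} (hf : ContinuousOn f Ω)
    (hne : ∀ v : ℂ, ∃ x ∈ Ω, f x ≠ v) : ∃ x ∈ Ω, rG (f x) ≠ 0 := by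
  by_contra hcon
  push Not at hcon
  have h1 : f '' Ω ⊆ range fun m : ℕ => (-m : ℂ) := by
    rintro _ ⟨x, hx, rfl⟩
    obtain ⟨m, hm⟩ := (rG_eq_zero_iff _).1 (hcon x hx)
    exact ⟨m, hm.symm⟩
  have h2 : (range fun m : ℕ => (-m : ℂ)).Countable := countable_range _
  have h3 := h2.isTotallyDisconnected (f '' Ω) h1 (hc.image f hf)
  obtain ⟨x, hx, -⟩ := hne 0
  obtain ⟨y, hy, hxy⟩ := hne (f x)
  exact hxy (h3 ⟨y, hy, rfl⟩ ⟨x, hx, rfl⟩)

variable {n : ℕ} (Ω : Set E) (f : Fin n → E → ℂ)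

/-- some coefficient of `P` is not identically zero at `f` -/
def Live {k : ℕ} (P : MvPolynomial (Fin k) (MvPolynomial (Fin n) ℂ)) : Prop :=
  ∃ s, ∃ x ∈ Ω, MvPolynomial.eval (fun i => f i x) (P.coeff s) ≠ 0

/-- the functions `Γ(f (g a))` are algebraically independent over `ℂ(f_1, …, f_n)` -/
def Indep {k : ℕ} (g : Fin k → Fin n) : Prop :=
  ∀ P : MvPolynomial (Fin k) (MvPolynomial (Fin n) ℂ), Live Ω f P →
    ∃ x ∈ Ω, (∀ a, ∀ l : ℕ, f (g a) x ≠ -l) ∧
      ev (fun i => f i x) (fun a => Gamma (f (g a) x)) P ≠ 0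

variable {Ω f}

omit [NormedAddCommGroup E] [NormedSpace ℂ E] in
theorem ev_of_not_live {k : ℕ} {P : MvPolynomial (Fin k) (MvPolynomial (Fin n) ℂ)}
    (h : ¬ Live Ω f P) {x : E} (hx : x ∈ Ω) (w : Fin k → ℂ) : ev (fun i => f i x) w P = 0 := by
  rw [ev_eq]
  apply Finset.sum_eq_zero
  intro s _
  have : MvPolynomial.eval (fun i => f i x) (P.coeff s) = 0 := by
    by_contra hne
    exact h ⟨s, x, hx, hne⟩
  rw [this, zero_mul]

/-- the numerator of the value -/
noncomputable def num {k : ℕ} (f : Fin n → E → ℂ) (g : Fin k → Fin n)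
    (P : MvPolynomial (Fin k) (MvPolynomial (Fin n) ℂ)) (x : E) : ℂ :=
  ∑ s ∈ P.support, MvPolynomial.eval (fun i => f i x) (P.coeff s) *
    ∏ a, rG (f (g a) x) ^ (P.totalDegree - s a)

omit [NormedAddCommGroup E] [NormedSpace ℂ E] in
theorem num_eq {k : ℕ} (g : Fin k → Fin n) (P : MvPolynomial (Fin k) (MvPolynomial (Fin n) ℂ))
    {x : E} (hx : ∀ a, ∀ l : ℕ, f (g a) x ≠ -l) :
    num f g P x = ev (fun i => f i x) (fun a => Gamma (f (g a) x)) P *
      ∏ a, rG (f (g a) x) ^ P.totalDegree := by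
  rw [num, ev_eq, Finset.sum_mul]
  apply Finset.sum_congr rfl
  intro s hs
  rw [mul_assoc, ← Finset.prod_mul_distrib]
  congr 1
  apply Finset.prod_congr rfl
  intro a _
  have h1 : s a ≤ P.totalDegree := by
    refine le_trans ?_ (MvPolynomial.le_totalDegree hs)
    rw [Finsupp.sum_fintype _ _ (fun _ => rfl)]
    exact Finset.single_le_sum (f := fun a => s a) (fun _ _ => Nat.zero_le _) (Finset.mem_univ a)
  have h2 : Gamma (f (g a) x) * rG (f (g a) x) = 1 := mul_inv_cancel₀ (Gamma_ne_zero (hx a))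
  have h3 : rG (f (g a) x) ^ P.totalDegree =
      rG (f (g a) x) ^ s a * rG (f (g a) x) ^ (P.totalDegree - s a) := by
    rw [← pow_add]; congr 1; omega
  rw [h3, ← mul_assoc, ← mul_pow, h2, one_pow, one_mul]

theorem num_an {k : ℕ} (hf : ∀ i, AnalyticOnNhd ℂ (f i) Ω) (g : Fin k → Fin n)
    (P : MvPolynomial (Fin k) (MvPolynomial (Fin n) ℂ)) : AnalyticOnNhd ℂ (num f g P) Ω := by
  unfold num
  apply Finset.analyticOnNhd_fun_sum
  intro s _
  apply (an_eval hf _).mul
  apply Finset.analyticOnNhd_fun_prod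
  intro a _
  exact (rG_comp_an (hf (g a))).pow _

/-- **One more function.** -/
theorem step [FiniteDimensional ℂ E] (hΩ : IsOpen Ω) (hc : IsPreconnected Ω)
    (hf : ∀ i, AnalyticOnNhd ℂ (f i) Ω) {x₀ : E} (hx₀ : x₀ ∈ Ω) {T : Submodule ℂ E}
    (hT : ∀ v ∈ T, (∀ i, fderiv ℂ (f i) x₀ v = 0) → v = 0) {k : ℕ} (hk : k < Module.finrank ℂ T)
    {g : Fin k → Fin n} (hg : Indep Ω f g) :
    ∃ i, Indep Ω f (Fin.cons i g : Fin (k + 1) → Fin n) := by
  classical
  by_contra hcon
  push Not at hcon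
  have hfd : ∀ i, DifferentiableOn ℂ (f i) Ω := fun i => (hf i).differentiableOn
  -- the relations
  have hrel : ∀ i, ∃ P : MvPolynomial (Fin (k + 1)) (MvPolynomial (Fin n) ℂ), Live Ω f P ∧
      ∀ x ∈ Ω, (∀ a, ∀ l : ℕ, f ((Fin.cons i g : Fin (k + 1) → Fin n) a) x ≠ -l) →
        ev (fun i => f i x) (fun a => Gamma (f ((Fin.cons i g : Fin (k + 1) → Fin n) a) x)) P = 0 := by
    intro i
    have h := hcon i
    unfold Indep at h
    push Not at h
    exact h
  choose P hPl hP using hrel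
  set c : Fin n → ℕ → MvPolynomial (Fin k) (MvPolynomial (Fin n) ℂ) := fun i j =>
    (MvPolynomial.finSuccEquiv _ k (P i)).coeff j with hcdef
  -- the degree
  have hdeg : ∀ i, ∃ d, Live Ω f (c i d) ∧ ∀ j, d < j → ¬ Live Ω f (c i j) := by
    intro i
    have h1 : ∃ j, Live Ω f (c i j) := by
      obtain ⟨s, x, hx, hsx⟩ := hPl i
      refine ⟨s 0, s.tail, x, hx, ?_⟩
      rw [hcdef]
      simp only
      rw [MvPolynomial.finSuccEquiv_coeff_coeff, Finsupp.cons_tail]
      exact hsx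
    have h2 : ∀ j, Live Ω f (c i j) → j ≤ (MvPolynomial.finSuccEquiv _ k (P i)).natDegree := by
      rintro j ⟨s, x, hx, hsx⟩
      by_contra hlt
      push Not at hlt
      rw [hcdef] at hsx
      simp only [Polynomial.coeff_eq_zero_of_natDegree_lt hlt] at hsx
      simp at hsx
    obtain ⟨j₀, hj₀⟩ := h1
    refine ⟨Nat.findGreatest (fun j => Live Ω f (c i j)) _, Nat.findGreatest_spec (P := fun j =>
      Live Ω f (c i j)) (h2 j₀ hj₀) hj₀, fun j hj hl => ?_⟩
    exact absurd (Nat.le_findGreatest (h2 j hl) hl) (not_le.2 hj)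
  choose d hd1 hd2 using hdeg
  -- expansion of the relations
  have hexp : ∀ i, ∀ x ∈ Ω, ∀ (w : Fin k → ℂ) (y : ℂ), ev (fun i => f i x) (Fin.cons y w) (P i) =
      ∑ j ∈ Finset.range (d i + 1), ev (fun i => f i x) w (c i j) * y ^ j := by
    intro i x hx w y
    rw [ev_finSucc]
    have h1 : d i ≤ (MvPolynomial.finSuccEquiv _ k (P i)).natDegree := by
      by_contra hlt
      push Not at hlt
      obtain ⟨s, x, hx, hsx⟩ := hd1 i
      rw [hcdef] at hsx
      simp only [Polynomial.coeff_eq_zero_of_natDegree_lt hlt] at hsx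
      simp at hsx
    symm
    apply Finset.sum_subset (Finset.range_subset_range.2 (by omega))
    intro j _ hj
    have h2 : ¬ Live Ω f (c i j) := hd2 i j (by
      have := Finset.mem_range.not.1 hj
      omega)
    show ev _ w (c i j) * y ^ j = 0
    rw [ev_of_not_live h2 hx, zero_mul]
  -- the functions which must not vanish
  have hnum : ∀ i, ∃ x ∈ Ω, num f g (c i (d i)) x ≠ 0 := by
    intro i
    obtain ⟨x, hx, hx1, hx2⟩ := hg _ (hd1 i)
    refine ⟨x, hx, ?_⟩
    rw [num_eq g _ hx1]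
    apply mul_ne_zero hx2
    apply Finset.prod_ne_zero_iff.2
    intro a _
    exact pow_ne_zero _ (inv_ne_zero (Gamma_ne_zero (hx1 a)))
  have hgp : ∀ a, ∃ x ∈ Ω, rG (f (g a) x) ≠ 0 := by
    intro a
    obtain ⟨x, hx, hx1, -⟩ := hg 1 ⟨0, x₀, hx₀, by simp⟩
    exact ⟨x, hx, inv_ne_zero (Gamma_ne_zero (hx1 a))⟩
  set nc : Fin n → Prop := fun i => (∀ v : ℂ, ∃ x ∈ Ω, f i x ≠ v) with hnc
  have hcst : ∀ i, ¬ nc i → ∀ x ∈ Ω, ∀ y ∈ Ω, f i x = f i y := by
    intro i hi x hx y hy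
    rw [hnc] at hi
    push Not at hi
    obtain ⟨v, hv⟩ := hi
    rw [hv x hx, hv y hy]
  -- the family
  set h₁ : Fin n → E → ℂ := fun i x => if nc i then rG (f i x) else 1 with hh₁
  set h₂ : Fin n → E → ℂ := fun i => num f g (c i (d i)) with hh₂
  set h₃ : Fin k → E → ℂ := fun a x => rG (f (g a) x) with hh₃
  have hne₁ : ∀ i, ∃ x ∈ Ω, h₁ i x ≠ 0 := by
    intro i
    by_cases h : nc i
    · simp only [hh₁, if_pos h]
      exact nonconst_pole hc (hfd i).continuousOn h
    · simp only [hh₁, if_neg h]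
      exact ⟨x₀, hx₀, one_ne_zero⟩
  have han₁ : ∀ i, AnalyticOnNhd ℂ (h₁ i) Ω := by
    intro i
    by_cases h : nc i
    · simp only [hh₁, if_pos h]
      exact rG_comp_an (hf i)
    · simp only [hh₁, if_neg h]
      exact analyticOnNhd_const
  set H : Fin (n + (n + k)) → E → ℂ := Fin.append h₁ (Fin.append h₂ h₃) with hH
  have hHan : ∀ m, AnalyticOnNhd ℂ (H m) Ω := by
    intro m
    refine Fin.addCases (fun i => ?_) (fun m' => ?_) m
    · rw [hH, Fin.append_left]; exact han₁ i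
    · rw [hH, Fin.append_right]
      refine Fin.addCases (fun i => ?_) (fun a => ?_) m'
      · rw [Fin.append_left]; exact num_an hf g _
      · rw [Fin.append_right]; exact rG_comp_an (hf (g a))
  have hHne : ∀ m, ∃ x ∈ Ω, H m x ≠ 0 := by
    intro m
    refine Fin.addCases (fun i => ?_) (fun m' => ?_) m
    · rw [hH, Fin.append_left]; exact hne₁ i
    · rw [hH, Fin.append_right]
      refine Fin.addCases (fun i => ?_) (fun a => ?_) m'
      · rw [Fin.append_left]; exact hnum i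
      · rw [Fin.append_right]; exact hgp a
  -- the point
  have hnear := injective_near hΩ hfd hx₀ T hT
  obtain ⟨W, hWsub, hWo, hWx⟩ := _root_.mem_nhds_iff.1 (inter_mem hnear (hΩ.mem_nhds hx₀))
  obtain ⟨x₁, hx₁W, hx₁⟩ := exists_common hc H hHan hHne W hWo ⟨x₀, hWx⟩ (fun x hx => (hWsub hx).2)
  set U : Set E := Ω ∩ ⋂ m, {x | H m x ≠ 0} with hU
  have hUo : IsOpen U := by
    have h1 : U = ⋂ m, (Ω ∩ {x | H m x ≠ 0}) ∩ Ω := by
      ext x
      simp only [hU, mem_inter_iff, mem_iInter]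
      constructor
      · rintro ⟨h1, h2⟩ m; exact ⟨⟨h1, h2 m⟩, h1⟩
      · intro h
        refine ⟨?_, fun m => (h m).1.2⟩
        rcases Nat.eq_zero_or_pos (n + (n + k)) with h0 | h0
        · exfalso
          have hk0 : k = 0 := by omega
          have hn0 : n = 0 := by omega
          subst hn0
          have : Nontrivial T := Module.nontrivial_of_finrank_pos (lt_of_le_of_lt (Nat.zero_le _) hk)
          obtain ⟨v, hv⟩ := exists_ne (0 : T)
          exact hv (Subtype.ext (hT v.1 v.2 fun i => i.elim0))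
        · exact (h ⟨0, h0⟩).2
    rw [h1]
    apply isOpen_iInter_of_finite
    intro m
    exact (((hHan m).continuousOn).isOpen_inter_preimage hΩ isOpen_compl_singleton).inter hΩ
  have hx₁U : x₁ ∈ U := ⟨(hWsub hx₁W).2, mem_iInter.2 hx₁⟩
  have hUΩ : U ⊆ Ω := inter_subset_left
  obtain ⟨γ, i₀, c₀, hγ0, hγc, hγe, hc₀, hγd⟩ := exists_curve k E n U f x₁ T g hUo
    (fun i => (hfd i).mono hUΩ) hx₁U (hWsub hx₁W).1 hk
  -- consequences of membership in `U`
  have hU1 : ∀ x ∈ U, ∀ i, nc i → ∀ l : ℕ, f i x ≠ -l := by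
    intro x hx i hi l hl
    have h1 := mem_iInter.1 hx.2 (Fin.castAdd (n + k) i)
    apply h1
    rw [hH, Fin.append_left]
    simp only [hh₁, if_pos hi]
    exact (rG_eq_zero_iff _).2 ⟨l, hl⟩
  have hU3 : ∀ x ∈ U, ∀ a, ∀ l : ℕ, f (g a) x ≠ -l := by
    intro x hx a l hl
    have h1 := mem_iInter.1 hx.2 (Fin.natAdd n (Fin.natAdd n a))
    apply h1
    rw [hH, Fin.append_right, Fin.append_right]
    exact (rG_eq_zero_iff _).2 ⟨l, hl⟩
  have hU2 : ∀ x ∈ U, ∀ i, ev (fun i => f i x) (fun a => Gamma (f (g a) x)) (c i (d i)) ≠ 0 := by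
    intro x hx i h0
    have h1 := mem_iInter.1 hx.2 (Fin.natAdd n (Fin.castAdd k i))
    apply h1
    rw [hH, Fin.append_right, Fin.append_left]
    show num f g (c i (d i)) x = 0
    rw [num_eq g _ (hU3 x hx), h0, zero_mul]
  -- the variables
  let κ : Type := {i : Fin n // nc i ∧ ∀ a, g a ≠ i}
  set ext : (κ → ℂ) → Fin n → ℂ := fun z i =>
    if h : nc i ∧ ∀ a, g a ≠ i then z ⟨i, h⟩ else f i (γ 0) with hext
  set w₀ : Fin k → ℂ := fun a => Gamma (f (g a) (γ 0)) with hw₀
  set A : κ → ℕ → (κ → ℂ) → ℂ := fun i j z => ev (ext z) w₀ (c i.1 j) with hA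
  have hextd : ∀ i, Differentiable ℂ fun z => ext z i := by
    intro i
    by_cases h : nc i ∧ ∀ a, g a ≠ i
    · simp only [hext, dif_pos h]
      fun_prop
    · simp only [hext, dif_neg h]
      exact differentiable_const _
  have hextb : ∀ i, PB fun z => ext z i := by
    intro i
    by_cases h : nc i ∧ ∀ a, g a ≠ i
    · simp only [hext, dif_pos h]
      refine ⟨1, 1, zero_le_one, fun z => ?_⟩
      have := norm_le_pi_norm z ⟨i, h⟩
      rw [pow_one, one_mul]
      linarith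
    · simp only [hext, dif_neg h]
      exact PB.const _
  have hext' : ∀ x ∈ U, (∀ a, f (g a) x = f (g a) (γ 0)) → ext (fun i : κ => f i.1 x) = fun i => f i x := by
    intro x hx hxg
    ext i
    by_cases h : nc i ∧ ∀ a, g a ≠ i
    · simp only [hext, dif_pos h]
    · simp only [hext, dif_neg h]
      by_cases hn : nc i
      · have : ∃ a, g a = i := by
          by_contra hcon2
          push Not at hcon2
          exact h ⟨hn, hcon2⟩
        obtain ⟨a, rfl⟩ := this
        exact (hxg a).symm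
      · exact hcst i hn _ (hUΩ hγ0) _ (hUΩ hx)
  have hsol : ∀ x ∈ U, (∀ a, f (g a) x = f (g a) (γ 0)) →
      (fun i : κ => f i.1 x) ∈ Sol (fun i : κ => d i.1) A := by
    intro x hx hxg
    refine ⟨fun i l => hU1 x hx i.1 i.2.1 l, fun i => ?_⟩
    have h1 := hP i.1 x (hUΩ hx) (by
      intro a l
      refine Fin.cases ?_ (fun b => ?_) a
      · rw [Fin.cons_zero]; exact hU1 x hx i.1 i.2.1 l
      · rw [Fin.cons_succ]; exact hU3 x hx b l)
    have h2 : (fun a => Gamma (f ((Fin.cons i.1 g : Fin (k + 1) → Fin n) a) x)) =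
        (Fin.cons (Gamma (f i.1 x)) (fun a => Gamma (f (g a) x)) : Fin (k + 1) → ℂ) := by
      ext a
      refine Fin.cases ?_ (fun b => ?_) a <;> simp
    rw [h2, hexp i.1 x (hUΩ hx)] at h1
    rw [← h1]
    apply Finset.sum_congr rfl
    intro j _
    rw [hA]
    simp only
    rw [hext' x hx hxg, hw₀]
    simp only [hxg]
  have hz0 := hsol (γ 0) hγ0 fun a => rfl
  have hlead : ∀ i : κ, A i (d i.1) (fun i : κ => f i.1 (γ 0)) ≠ 0 := by
    intro i
    rw [hA]
    simp only
    rw [hext' (γ 0) hγ0 fun a => rfl, hw₀]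
    exact hU2 (γ 0) hγ0 i.1
  have hdpos : ∀ i : κ, 0 < d i.1 := by
    intro i
    by_contra h0
    have h0' : d i.1 = 0 := by omega
    have h1 := hz0.2 i
    have h2 := hlead i
    simp only [h0', zero_add, Finset.sum_range_one, pow_zero, mul_one] at h1 h2
    exact h2 h1
  have hiso := isolated (d := fun i : κ => d i.1) (a := A) hdpos
    (fun i j => diff_ev hextd w₀ _) (fun i j => PB_ev hextb w₀ _) hz0 hlead
  apply hiso
  rw [mem_derivedSet, accPt_iff_frequently_nhdsNE]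
  have ht : Tendsto (fun t => (fun i : κ => f i.1 (γ t))) (𝓝[≠] (0 : ℂ))
      (𝓝[≠] (fun i : κ => f i.1 (γ 0))) := by
    apply tendsto_nhdsWithin_of_tendsto_nhds_of_eventually_within
    · apply Tendsto.mono_left _ nhdsWithin_le_nhds
      apply tendsto_pi_nhds.2
      intro i
      have h1 : ContinuousAt (f i.1) (γ 0) :=
        (hfd i.1).continuousOn.continuousAt (hΩ.mem_nhds (hUΩ hγ0))
      exact ContinuousAt.comp (f := γ) h1 hγc
    · have h1 := hγd.eventually_ne (c := f i₀ (γ 0)) hc₀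
      filter_upwards [h1, nhdsWithin_le_nhds hγe] with t ht1 ht2 heq
      have hne := ht1
      have hi₀ : nc i₀ ∧ ∀ a, g a ≠ i₀ := by
        constructor
        · by_contra hn
          exact hne (hcst i₀ hn _ (hUΩ ht2.1) _ (hUΩ hγ0))
        · rintro a rfl
          exact hne (ht2.2 a)
      exact hne (congrFun heq ⟨i₀, hi₀⟩)
  refine ht.frequently ?_
  apply Eventually.frequently
  filter_upwards [nhdsWithin_le_nhds hγe] with t ht1
  exact hsol (γ t) ht1.1 ht1.2

/-- **Theorem.** At least `r` of the functions `Γ(f_i)` are algebraically independent over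
`ℂ(f_1, …, f_n)`. -/
theorem functional [FiniteDimensional ℂ E] (hΩ : IsOpen Ω) (hc : IsPreconnected Ω)
    (hf : ∀ i, AnalyticOnNhd ℂ (f i) Ω) {x₀ : E} (hx₀ : x₀ ∈ Ω) {T : Submodule ℂ E}
    (hT : ∀ v ∈ T, (∀ i, fderiv ℂ (f i) x₀ v = 0) → v = 0) :
    ∀ k ≤ Module.finrank ℂ T, ∃ g : Fin k → Fin n, Indep Ω f g := by
  intro k
  induction k with
  | zero =>
    intro _
    refine ⟨fun a => a.elim0, ?_⟩
    rintro P ⟨s, x, hx, hs⟩
    refine ⟨x, hx, fun a => a.elim0, ?_⟩
    have hs0 : s = 0 := Subsingleton.elim _ _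
    subst hs0
    rw [ev_eq]
    have h1 : P.support ⊆ {0} := fun s _ => by simp [Subsingleton.elim s 0]
    rw [Finset.sum_subset h1 (fun s _ hs => by
      rw [MvPolynomial.notMem_support_iff] at hs
      rw [hs]; simp)]
    simpa using hs
  | succ k ih =>
    intro hk
    obtain ⟨g, hg⟩ := ih (by omega)
    obtain ⟨i, hi⟩ := step hΩ hc hf hx₀ hT (by omega) hg
    exact ⟨_, hi⟩

end

end Pool.Agent.Helper1.AS
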