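import Pool.Agent.Helper1.AS.MaxPrin

/-!
# Points at which all the values of `Γ` are algebraic over the arguments are isolated
-/

set_option autoImplicit false

open Metric Set Filter Topology Complex

namespace Pool.Agent.Helper1.AS

/-- polynomially bounded functions -/
def PB {X : Type} [Norm X] (f : X → ℂ) : Prop := ∃ (C : ℝ) (D : ℕ), 0 ≤ C ∧ ∀ z, ‖f z‖ ≤ C * (1 + ‖z‖) ^ D

section PB

variable {X : Type} [NormedAddCommGroup X]

theorem PB.const (c : ℂ) : PB (fun _ : X => c) := ⟨‖c‖, 0, norm_nonneg _, by simp⟩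

theorem one_le (z : X) : 1 ≤ 1 + ‖z‖ := by have := norm_nonneg z; linarith

theorem PB.add {f g : X → ℂ} (hf : PB f) (hg : PB g) : PB (fun z => f z + g z) := by
  obtain ⟨C, D, hC, h⟩ := hf
  obtain ⟨C', D', hC', h'⟩ := hg
  refine ⟨C + C', D + D', by positivity, fun z => ?_⟩
  have h1 : (1 + ‖z‖) ^ D ≤ (1 + ‖z‖) ^ (D + D') := pow_le_pow_right₀ (one_le z) (by omega)
  have h2 : (1 + ‖z‖) ^ D' ≤ (1 + ‖z‖) ^ (D + D') := pow_le_pow_right₀ (one_le z) (by omega)
  calc ‖f z + g z‖ ≤ ‖f z‖ + ‖g z‖ := norm_add_le _ _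
    _ ≤ C * (1 + ‖z‖) ^ D + C' * (1 + ‖z‖) ^ D' := add_le_add (h z) (h' z)
    _ ≤ C * (1 + ‖z‖) ^ (D + D') + C' * (1 + ‖z‖) ^ (D + D') :=
      add_le_add (mul_le_mul_of_nonneg_left h1 hC) (mul_le_mul_of_nonneg_left h2 hC')
    _ = (C + C') * (1 + ‖z‖) ^ (D + D') := by ring

theorem PB.mul {f g : X → ℂ} (hf : PB f) (hg : PB g) : PB (fun z => f z * g z) := by
  obtain ⟨C, D, hC, h⟩ := hf
  obtain ⟨C', D', hC', h'⟩ := hg
  refine ⟨C * C', D + D', by positivity, fun z => ?_⟩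
  calc ‖f z * g z‖ = ‖f z‖ * ‖g z‖ := norm_mul _ _
    _ ≤ (C * (1 + ‖z‖) ^ D) * (C' * (1 + ‖z‖) ^ D') :=
      mul_le_mul (h z) (h' z) (norm_nonneg _) (by positivity)
    _ = C * C' * (1 + ‖z‖) ^ (D + D') := by rw [pow_add]; ring

theorem PB.pow {f : X → ℂ} (hf : PB f) (k : ℕ) : PB (fun z => f z ^ k) := by
  induction k with
  | zero => simpa using PB.const (1 : ℂ)
  | succ k ih => simpa only [pow_succ] using ih.mul hf

theorem PB.norm {f : X → ℂ} (hf : PB f) : PB (fun z => ((‖f z‖ : ℝ) : ℂ)) := by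
  obtain ⟨C, D, hC, h⟩ := hf
  exact ⟨C, D, hC, fun z => by simpa using h z⟩

theorem PB.sum {ι : Type} (s : Finset ι) {f : ι → X → ℂ} (hf : ∀ i ∈ s, PB (f i)) :
    PB (fun z => ∑ i ∈ s, f i z) := by
  classical
  induction s using Finset.induction_on with
  | empty => simpa using PB.const (0 : ℂ)
  | insert a s ha ih =>
    simp only [Finset.sum_insert ha]
    exact (hf a (by simp)).add (ih fun i hi => hf i (by simp [hi]))

theorem PB.prod {ι : Type} (s : Finset ι) {f : ι → X → ℂ} (hf : ∀ i ∈ s, PB (f i)) :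
    PB (fun z => ∏ i ∈ s, f i z) := by
  classical
  induction s using Finset.induction_on with
  | empty => simpa using PB.const (1 : ℂ)
  | insert a s ha ih =>
    simp only [Finset.prod_insert ha]
    exact (hf a (by simp)).mul (ih fun i hi => hf i (by simp [hi]))

end PB

/-- a bound for the roots of a monic polynomial -/
theorem root_bound {d : ℕ} {c : ℕ → ℂ} {v : ℂ}
    (h : v ^ d + ∑ j ∈ Finset.range d, c j * v ^ j = 0) :
    ‖v‖ ≤ 1 + ∑ j ∈ Finset.range d, ‖c j‖ := by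
  have hs : 0 ≤ ∑ j ∈ Finset.range d, ‖c j‖ := Finset.sum_nonneg fun j _ => norm_nonneg _
  by_cases h1 : ‖v‖ ≤ 1
  · linarith
  · push Not at h1
    have h2 : v ^ d = -∑ j ∈ Finset.range d, c j * v ^ j := eq_neg_of_add_eq_zero_left h
    rcases Nat.eq_zero_or_pos d with rfl | hd
    · simp at h2
    · have h3 : ‖v‖ ^ d ≤ (∑ j ∈ Finset.range d, ‖c j‖) * ‖v‖ ^ (d - 1) := by
        rw [← norm_pow, h2, norm_neg, Finset.sum_mul]
        refine (norm_sum_le _ _).trans (Finset.sum_le_sum fun j hj => ?_)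
        rw [norm_mul, norm_pow]
        apply mul_le_mul_of_nonneg_left _ (norm_nonneg _)
        apply pow_le_pow_right₀ h1.le
        have := Finset.mem_range.1 hj
        omega
      have h4 : ‖v‖ ^ d = ‖v‖ * ‖v‖ ^ (d - 1) := by
        conv_lhs => rw [← Nat.sub_add_cancel hd, pow_succ]
        ring
      rw [h4] at h3
      have h5 : 0 < ‖v‖ ^ (d - 1) := by positivity
      have h6 := le_of_mul_le_mul_right h3 h5
      linarith

/-- `1 / Γ` -/
noncomputable def rG (z : ℂ) : ℂ := (Gamma z)⁻¹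

theorem rG_diff : Differentiable ℂ rG := differentiable_one_div_Gamma

theorem rG_rec (z : ℂ) (m : ℕ) : rG z = (∏ k ∈ Finset.range m, (z + k)) * rG (z + m) := by
  induction m with
  | zero => simp
  | succ m ih =>
    rw [ih, Finset.prod_range_succ, mul_assoc]
    congr 1
    have := one_div_Gamma_eq_self_mul_one_div_Gamma_add_one (z + m)
    rw [rG, this, rG]
    push_cast
    ring_nf

theorem rG_ne_zero {z : ℂ} (hz : 0 < z.re) : rG z ≠ 0 := inv_ne_zero (Gamma_ne_zero_of_re_pos hz)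

/-- **Estimate in one variable.** -/
theorem one_var (M : ℕ) : ∃ K : ℝ, 0 ≤ K ∧ ∀ (z v a : ℂ) (B : ℝ), v * rG z = a → ‖v‖ ≤ B → ‖a‖ ≤ B →
    ‖v * rG (z + (M + 1 : ℕ))‖ * (1 + ‖z‖) ^ (M + 1) ≤ K * B := by
  obtain ⟨K₀, hK₀⟩ : ∃ K₀ : ℝ, ∀ z ∈ closedBall (0 : ℂ) (2 * M + 2), ‖rG (z + (M + 1 : ℕ))‖ ≤ K₀ :=
    (isCompact_closedBall (0 : ℂ) (2 * M + 2)).exists_bound_of_continuousOn
      (rG_diff.continuous.comp (by fun_prop : Continuous fun z : ℂ => z + (M + 1 : ℕ))).continuousOn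
  have hK0 : 0 ≤ K₀ := (norm_nonneg _).trans (hK₀ 0 (by
    rw [mem_closedBall, dist_self]; positivity))
  refine ⟨K₀ * (1 + (2 * M + 2)) ^ (M + 1) + 2 ^ (M + 1), by positivity, fun z v a B hv hvB haB => ?_⟩
  have hB : 0 ≤ B := (norm_nonneg _).trans hvB
  by_cases hz : ‖z‖ ≤ 2 * M + 2
  · have h1 := hK₀ z (by simpa using hz)
    have h2 : ‖v * rG (z + (M + 1 : ℕ))‖ ≤ B * K₀ := by
      rw [norm_mul]
      exact mul_le_mul hvB h1 (norm_nonneg _) hB
    have h3 : (1 + ‖z‖) ^ (M + 1) ≤ (1 + (2 * M + 2) : ℝ) ^ (M + 1) :=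
      pow_le_pow_left₀ (by positivity) (by linarith) _
    calc ‖v * rG (z + (M + 1 : ℕ))‖ * (1 + ‖z‖) ^ (M + 1) ≤ (B * K₀) * (1 + (2 * M + 2) : ℝ) ^ (M + 1) :=
          mul_le_mul h2 h3 (by positivity) (by positivity)
      _ ≤ (K₀ * (1 + (2 * M + 2)) ^ (M + 1) + 2 ^ (M + 1)) * B := by
          have : 0 ≤ (2 : ℝ) ^ (M + 1) * B := by positivity
          nlinarith
  · push Not at hz
    have h1 : (∏ k ∈ Finset.range (M + 1), (z + k)) * (v * rG (z + (M + 1 : ℕ))) = a := by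
      rw [← hv, rG_rec z (M + 1)]
      ring
    have h2 : ((1 + ‖z‖) / 2) ^ (M + 1) ≤ ‖∏ k ∈ Finset.range (M + 1), (z + k)‖ := by
      have e1 : ((1 + ‖z‖) / 2) ^ (M + 1) = ∏ _k ∈ Finset.range (M + 1), ((1 + ‖z‖) / 2) := by
        rw [Finset.prod_const, Finset.card_range]
      rw [norm_prod, e1]
      apply Finset.prod_le_prod
      · intro i _; positivity
      · intro i hi
        have hi' : (i : ℝ) ≤ M := by
          have := Finset.mem_range.1 hi
          exact_mod_cast (by omega : i ≤ M)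
        have h3 : ‖z‖ - ‖(i : ℂ)‖ ≤ ‖z + i‖ := by
          have := norm_sub_norm_le z (-(i : ℂ))
          simpa using this
        have h4 : ‖(i : ℂ)‖ = i := by simp
        rw [h4] at h3
        linarith
    have h5 : ((1 + ‖z‖) / 2) ^ (M + 1) * ‖v * rG (z + (M + 1 : ℕ))‖ ≤ B := by
      calc ((1 + ‖z‖) / 2) ^ (M + 1) * ‖v * rG (z + (M + 1 : ℕ))‖
          ≤ ‖∏ k ∈ Finset.range (M + 1), (z + k)‖ * ‖v * rG (z + (M + 1 : ℕ))‖ :=
            mul_le_mul_of_nonneg_right h2 (norm_nonneg _)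
        _ = ‖a‖ := by rw [← norm_mul, h1]
        _ ≤ B := haB
    rw [div_pow, div_mul_eq_mul_div, div_le_iff₀ (by positivity)] at h5
    have h6 : 0 ≤ K₀ * (1 + (2 * M + 2 : ℝ)) ^ (M + 1) * B := by positivity
    nlinarith

theorem diff_prod {X : Type} [NormedAddCommGroup X] [NormedSpace ℂ X] {ι : Type} (s : Finset ι)
    {f : ι → X → ℂ} (h : ∀ i ∈ s, Differentiable ℂ (f i)) :
    Differentiable ℂ (fun x => ∏ i ∈ s, f i x) := by
  classical
  induction s using Finset.induction_on with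
  | empty => simp
  | insert a s ha ih =>
    simp only [Finset.prod_insert ha]
    exact (h a (by simp)).mul (ih fun i hi => h i (by simp [hi]))

section Main

variable {κ : Type} [Fintype κ]

theorem one_add_norm_le (z : κ → ℂ) : 1 + ‖z‖ ≤ ∏ i, (1 + ‖z i‖) := by
  classical
  rcases isEmpty_or_nonempty κ with h | h
  · have : z = 0 := Subsingleton.elim _ _
    simp [this]
  · obtain ⟨i, hi⟩ := Finite.exists_max fun i => ‖z i‖
    have h1 : ‖z‖ ≤ ‖z i‖ := (pi_norm_le_iff_of_nonneg (norm_nonneg _)).2 hi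
    calc 1 + ‖z‖ ≤ 1 + ‖z i‖ := by linarith
      _ = ∏ j, (if j = i then 1 + ‖z j‖ else 1) := by simp
      _ ≤ ∏ i, (1 + ‖z i‖) := by
        apply Finset.prod_le_prod
        · intro j _
          split_ifs
          · positivity
          · exact zero_le_one
        · intro j _
          split_ifs
          · exact le_rfl
          · exact one_le (z j)

/-- the equations -/
noncomputable def Q (d : κ → ℕ) (a : κ → ℕ → (κ → ℂ) → ℂ) (i : κ) (z : κ → ℂ) (v : ℂ) : ℂ :=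
  v ^ d i + ∑ j ∈ Finset.range (d i), (a i j z * a i (d i) z ^ (d i - 1 - j)) * v ^ j

noncomputable def Fam (d : κ → ℕ) (a : κ → ℕ → (κ → ℂ) → ℂ) : κ ⊕ κ → (κ → ℂ) × (κ → ℂ) → ℂ
  | Sum.inl i, p => Q d a i p.1 (p.2 i)
  | Sum.inr i, p => p.2 i * rG (p.1 i) - a i (d i) p.1

variable {d : κ → ℕ} {a : κ → ℕ → (κ → ℂ) → ℂ}

theorem Fam_diff (ha : ∀ i j, Differentiable ℂ (a i j)) (o : κ ⊕ κ) : Differentiable ℂ (Fam d a o) := by
  have h2 : ∀ i : κ, Differentiable ℂ fun p : (κ → ℂ) × (κ → ℂ) => p.2 i := fun i => by fun_prop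
  have h1 : ∀ i : κ, Differentiable ℂ fun p : (κ → ℂ) × (κ → ℂ) => p.1 i := fun i => by fun_prop
  have hA : ∀ i j, Differentiable ℂ fun p : (κ → ℂ) × (κ → ℂ) => a i j p.1 := fun i j =>
    (ha i j).comp differentiable_fst
  cases o with
  | inl i =>
    show Differentiable ℂ fun p : (κ → ℂ) × (κ → ℂ) => Q d a i p.1 (p.2 i)
    unfold Q
    exact ((h2 i).pow _).add (Differentiable.fun_sum fun j _ =>
      ((hA i j).mul ((hA i (d i)).pow _)).mul ((h2 i).pow _))
  | inr i =>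
    show Differentiable ℂ fun p : (κ → ℂ) × (κ → ℂ) => p.2 i * rG (p.1 i) - a i (d i) p.1
    exact ((h2 i).mul (rG_diff.comp (h1 i))).sub (hA i (d i))

/-- **Main estimate and vanishing.** -/
theorem all_zero (ha : ∀ i j, Differentiable ℂ (a i j)) (hb : ∀ i j, PB (a i j))
    {q : (κ → ℂ) × (κ → ℂ)} (hq : q ∈ derivedSet {p | ∀ o, Fam d a o p = 0}) : ∃ i, q.2 i = 0 := by
  classical
  -- bounds
  have hB : ∀ i, ∃ (C : ℝ) (D : ℕ), 0 ≤ C ∧ ∀ p : (κ → ℂ) × (κ → ℂ), (∀ o, Fam d a o p = 0) →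
      ‖p.2 i‖ ≤ C * (1 + ‖p.1‖) ^ D ∧ ‖a i (d i) p.1‖ ≤ C * (1 + ‖p.1‖) ^ D := by
    intro i
    have h1 : PB (fun z : κ → ℂ => ((1 : ℂ) + ∑ j ∈ Finset.range (d i),
        ((‖a i j z * a i (d i) z ^ (d i - 1 - j)‖ : ℝ) : ℂ)) + ((‖a i (d i) z‖ : ℝ) : ℂ)) :=
      ((PB.const 1).add (PB.sum _ fun j _ => ((hb i j).mul ((hb i (d i)).pow _)).norm)).add
        (hb i (d i)).norm
    obtain ⟨C, D, hC, h⟩ := h1
    refine ⟨C, D, hC, fun p hp => ?_⟩
    have h2 := h p.1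
    have e1 : ‖((1 : ℂ) + ∑ j ∈ Finset.range (d i),
        ((‖a i j p.1 * a i (d i) p.1 ^ (d i - 1 - j)‖ : ℝ) : ℂ)) + ((‖a i (d i) p.1‖ : ℝ) : ℂ)‖ =
        1 + ∑ j ∈ Finset.range (d i), ‖a i j p.1 * a i (d i) p.1 ^ (d i - 1 - j)‖ + ‖a i (d i) p.1‖ := by
      rw [← Complex.ofReal_sum, ← Complex.ofReal_one, ← Complex.ofReal_add, ← Complex.ofReal_add,
        Complex.norm_real, Real.norm_eq_abs, abs_of_nonneg]
      exact add_nonneg (add_nonneg zero_le_one (Finset.sum_nonneg fun j _ => norm_nonneg _))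
        (norm_nonneg _)
    rw [e1] at h2
    have h3 := root_bound (c := fun j => a i j p.1 * a i (d i) p.1 ^ (d i - 1 - j)) (hp (Sum.inl i))
    have h4 : 0 ≤ ∑ j ∈ Finset.range (d i), ‖a i j p.1 * a i (d i) p.1 ^ (d i - 1 - j)‖ :=
      Finset.sum_nonneg fun j _ => norm_nonneg _
    constructor
    · have := norm_nonneg (a i (d i) p.1)
      linarith
    · linarith
  choose C D hC hCD using hB
  set D₀ : ℕ := ∑ i, D i with hD₀
  -- choice of `M`
  obtain ⟨M, hM⟩ : ∃ M : ℕ, D₀ + ‖q.1‖ < M := exists_nat_gt _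
  have hMD : D₀ ≤ M := by
    have : (D₀ : ℝ) < M := by have := norm_nonneg q.1; linarith
    exact_mod_cast this.le
  have hMq : ‖q.1‖ < M := by
    have : (0 : ℝ) ≤ D₀ := by positivity
    linarith
  obtain ⟨K, hK, hKb⟩ := one_var M
  set G : (κ → ℂ) × (κ → ℂ) → ℂ := fun p => ∏ i, (p.2 i * rG (p.1 i + (M + 1 : ℕ))) with hG
  have hGd : Differentiable ℂ G := by
    rw [hG]
    apply diff_prod
    intro i _
    have h2 : Differentiable ℂ fun p : (κ → ℂ) × (κ → ℂ) => p.2 i := by fun_prop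
    have h1 : Differentiable ℂ fun p : (κ → ℂ) × (κ → ℂ) => p.1 i + (M + 1 : ℕ) := by fun_prop
    exact h2.mul (rG_diff.comp h1)
  set C₀ : ℝ := ∏ i, (K * C i) with hC₀
  have hC0 : 0 ≤ C₀ := Finset.prod_nonneg fun i _ => mul_nonneg hK (hC i)
  have hGb : ∀ p : (κ → ℂ) × (κ → ℂ), (∀ o, Fam d a o p = 0) → ‖G p‖ * (1 + ‖p.1‖) ≤ C₀ := by
    intro p hp
    have h1 : ∀ i, ‖p.2 i * rG (p.1 i + (M + 1 : ℕ))‖ * (1 + ‖p.1 i‖) ^ (M + 1) ≤
        K * (C i * (1 + ‖p.1‖) ^ D i) := fun i =>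
      hKb (p.1 i) (p.2 i) (a i (d i) p.1) _ (sub_eq_zero.1 (hp (Sum.inr i))) (hCD i p hp).1
        (hCD i p hp).2
    have h2 : ‖G p‖ * (∏ i, (1 + ‖p.1 i‖)) ^ (M + 1) ≤ C₀ * (1 + ‖p.1‖) ^ D₀ := by
      calc ‖G p‖ * (∏ i, (1 + ‖p.1 i‖)) ^ (M + 1)
          = ∏ i, (‖p.2 i * rG (p.1 i + (M + 1 : ℕ))‖ * (1 + ‖p.1 i‖) ^ (M + 1)) := by
            rw [hG, Finset.prod_mul_distrib, Finset.prod_pow]
            simp only [norm_prod]
        _ ≤ ∏ i, (K * (C i * (1 + ‖p.1‖) ^ D i)) :=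
            Finset.prod_le_prod (fun i _ => by positivity) fun i _ => h1 i
        _ = C₀ * (1 + ‖p.1‖) ^ D₀ := by
            rw [hC₀, hD₀, ← Finset.prod_pow_eq_pow_sum, ← Finset.prod_mul_distrib]
            exact Finset.prod_congr rfl fun i _ => by ring
    have h3 : (1 + ‖p.1‖) ^ (M + 1) ≤ (∏ i, (1 + ‖p.1 i‖)) ^ (M + 1) :=
      pow_le_pow_left₀ (by positivity) (one_add_norm_le p.1) _
    have h4 : ‖G p‖ * (1 + ‖p.1‖) ^ (M + 1) ≤ C₀ * (1 + ‖p.1‖) ^ D₀ :=
      (mul_le_mul_of_nonneg_left h3 (norm_nonneg _)).trans h2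
    have h5 : (1 + ‖p.1‖) ^ D₀ * (1 + ‖p.1‖) ≤ (1 + ‖p.1‖) ^ (M + 1) := by
      rw [← pow_succ]
      exact pow_le_pow_right₀ (one_le p.1) (by omega)
    have h6 : (1 + ‖p.1‖) ^ D₀ * (‖G p‖ * (1 + ‖p.1‖)) ≤ (1 + ‖p.1‖) ^ D₀ * C₀ := by
      calc (1 + ‖p.1‖) ^ D₀ * (‖G p‖ * (1 + ‖p.1‖)) = ‖G p‖ * ((1 + ‖p.1‖) ^ D₀ * (1 + ‖p.1‖)) := by
            ring
        _ ≤ ‖G p‖ * (1 + ‖p.1‖) ^ (M + 1) := mul_le_mul_of_nonneg_left h5 (norm_nonneg _)
        _ ≤ C₀ * (1 + ‖p.1‖) ^ D₀ := h4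
        _ = (1 + ‖p.1‖) ^ D₀ * C₀ := mul_comm _ _
    exact le_of_mul_le_mul_left h6 (by positivity)
  -- compactness
  have hcomp : ∀ s : ℝ, 0 < s → IsCompact {p | (∀ o, Fam d a o p = 0) ∧ s ≤ ‖G p‖} := by
    intro s hs
    apply Metric.isCompact_of_isClosed_isBounded
    · have h1 : IsClosed {p : (κ → ℂ) × (κ → ℂ) | ∀ o, Fam d a o p = 0} := by
        have : {p : (κ → ℂ) × (κ → ℂ) | ∀ o, Fam d a o p = 0} = ⋂ o, {p | Fam d a o p = 0} := by
          ext; simp
        rw [this]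
        exact isClosed_iInter fun o => isClosed_eq (Fam_diff ha o).continuous continuous_const
      exact h1.inter (isClosed_le continuous_const hGd.continuous.norm)
    · obtain ⟨B, hB⟩ : ∃ B : ℝ, ∀ i, C i * (1 + C₀ / s) ^ D i ≤ B := by
        refine ⟨∑ i, C i * (1 + C₀ / s) ^ D i, fun i => ?_⟩
        apply Finset.single_le_sum (f := fun i => C i * (1 + C₀ / s) ^ D i)
        · intro j _
          have := hC j
          positivity
        · simp
      rw [isBounded_iff_forall_norm_le]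
      refine ⟨max (C₀ / s) (max B 0), fun p hp => ?_⟩
      have h1 := hGb p hp.1
      have h2 : s * (1 + ‖p.1‖) ≤ C₀ := by
        refine le_trans ?_ h1
        exact mul_le_mul_of_nonneg_right hp.2 (by positivity)
      have h3 : ‖p.1‖ ≤ C₀ / s := by
        rw [le_div_iff₀ hs]
        nlinarith
      apply max_le
      · exact h3.trans (le_max_left _ _)
      · refine le_trans ?_ (le_max_right _ _)
        rw [pi_norm_le_iff_of_nonneg (le_max_right _ _)]
        intro i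
        refine le_trans ?_ (le_max_left _ _)
        refine le_trans ((hCD i p hp.1).1.trans ?_) (hB i)
        apply mul_le_mul_of_nonneg_left _ (hC i)
        apply pow_le_pow_left₀ (by positivity)
        linarith
  have h1 := vanish (Fam_diff ha) hGd hcomp hq
  rw [hG, Finset.prod_eq_zero_iff] at h1
  obtain ⟨i, -, hi⟩ := h1
  refine ⟨i, (mul_eq_zero.1 hi).resolve_right ?_⟩
  apply rG_ne_zero
  have h2 : |(q.1 i).re| ≤ ‖q.1‖ := (abs_re_le_norm _).trans (norm_le_pi_norm q.1 i)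
  have h3 := neg_abs_le (q.1 i).re
  simp only [add_re, natCast_re]
  push_cast
  linarith

/-- the common zeros of the equations `∑ a i j (z) Γ(z i) ^ j = 0` -/
def Sol (d : κ → ℕ) (a : κ → ℕ → (κ → ℂ) → ℂ) : Set (κ → ℂ) :=
  {z | (∀ i, ∀ m : ℕ, z i ≠ -m) ∧ ∀ i, ∑ j ∈ Finset.range (d i + 1), a i j z * Gamma (z i) ^ j = 0}

/-- **Isolated points.** -/
theorem isolated (hd : ∀ i, 0 < d i) (ha : ∀ i j, Differentiable ℂ (a i j)) (hb : ∀ i j, PB (a i j))
    {z : κ → ℂ} (hz : z ∈ Sol d a) (hz0 : ∀ i, a i (d i) z ≠ 0) : z ∉ derivedSet (Sol d a) := by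
  intro hacc
  set φ : (κ → ℂ) → (κ → ℂ) × (κ → ℂ) := fun z => (z, fun i => a i (d i) z * Gamma (z i)) with hφ
  have hφc : ContinuousAt φ z := by
    apply ContinuousAt.prodMk continuousAt_id
    apply continuousAt_pi.2
    intro i
    apply ContinuousAt.mul (ha i (d i)).continuous.continuousAt
    exact ContinuousAt.comp (f := fun z : κ → ℂ => z i)
      (differentiableAt_Gamma _ (hz.1 i)).continuousAt (continuous_apply i).continuousAt
  have hφi : Function.Injective φ := fun x y h => congrArg Prod.fst h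
  have hφZ : ∀ w ∈ Sol d a, ∀ o, Fam d a o (φ w) = 0 := by
    intro w hw o
    cases o with
    | inl i =>
      show Q d a i w (a i (d i) w * Gamma (w i)) = 0
      have h1 := hw.2 i
      rw [Finset.sum_range_succ] at h1
      have h2 : Q d a i w (a i (d i) w * Gamma (w i)) = a i (d i) w ^ (d i - 1) *
          (∑ j ∈ Finset.range (d i), a i j w * Gamma (w i) ^ j + a i (d i) w * Gamma (w i) ^ d i) := by
        rw [Q, mul_add, Finset.mul_sum, add_comm]
        congr 1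
        · apply Finset.sum_congr rfl
          intro j hj
          have hj' := Finset.mem_range.1 hj
          rw [mul_pow]
          have : a i (d i) w ^ (d i - 1) = a i (d i) w ^ (d i - 1 - j) * a i (d i) w ^ j := by
            rw [← pow_add]; congr 1; omega
          rw [this]; ring
        · rw [mul_pow]
          have : a i (d i) w ^ d i = a i (d i) w ^ (d i - 1) * a i (d i) w := by
            rw [← pow_succ]; congr 1; have := hd i; omega
          rw [this]; ring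
      rw [h2, h1, mul_zero]
    | inr i =>
      show a i (d i) w * Gamma (w i) * rG (w i) - a i (d i) w = 0
      rw [rG, mul_assoc, mul_inv_cancel₀ (Gamma_ne_zero (hw.1 i)), mul_one, sub_self]
  have hmem : φ z ∈ derivedSet {p | ∀ o, Fam d a o p = 0} := by
    rw [mem_derivedSet, accPt_iff_frequently_nhdsNE] at hacc ⊢
    have ht : Tendsto φ (𝓝[≠] z) (𝓝[≠] φ z) := by
      apply tendsto_nhdsWithin_of_tendsto_nhds_of_eventually_within _ (hφc.mono_left nhdsWithin_le_nhds)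
      filter_upwards [self_mem_nhdsWithin] with w hw h
      exact hw (hφi h)
    exact ht.frequently (hacc.mono fun w hw => hφZ w hw)
  obtain ⟨i, hi⟩ := all_zero ha hb hmem
  exact mul_ne_zero (hz0 i) (Gamma_ne_zero (hz.1 i)) hi

end Main

end Pool.Agent.Helper1.AS
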