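import Pool.Agent.Helper1.AS.Proj

/-!
# The maximum principle on sets of common zeros of entire functions of several variables
-/

set_option autoImplicit false

open Metric Set Filter Topology Complex

namespace Pool.Agent.Helper1.AS

variable {E : Type} [NormedAddCommGroup E] [NormedSpace ℂ E] [FiniteDimensional ℂ E]

/-- **Open mapping.** Let `p` be an isolated point of the level set `g = g p` in the set of common
zeros of the `F i`. Then `g` is open at `p` on the set of zeros, or `p` is isolated in it. -/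
theorem open_or_isolated {U : Set E} (hU : IsOpen U) {ι : Type} {F : ι → E → ℂ}
    (hF : ∀ i, DifferentiableOn ℂ (F i) U) {g : E → ℂ} (hg : DifferentiableOn ℂ g U) {p : E}
    (hp : p ∈ U) (hiso : ∀ᶠ x in 𝓝 p, (∀ i, F i x = 0) → g x = g p → x = p) :
    (∀ V ∈ 𝓝 p, ∀ᶠ c in 𝓝 (g p), ∃ x ∈ V, x ∈ U ∧ (∀ i, F i x = 0) ∧ g x = c) ∨
      ∀ᶠ x in 𝓝 p, (∀ i, F i x = 0) → x = p := by
  set N := Module.finrank ℂ E
  obtain ⟨e⟩ : Nonempty (E ≃L[ℂ] (Fin N → ℂ)) :=
    FiniteDimensional.nonempty_continuousLinearEquiv_of_finrank_eq (by simp [N])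
  set φ : ℂ × (Fin N → ℂ) → E := fun q => p + e.symm q.2 with hφ
  have hφc : Continuous φ := by fun_prop
  have hφd : Differentiable ℂ φ := by fun_prop
  have hφ0 : φ 0 = p := by simp [hφ]
  set U' : Set (ℂ × (Fin N → ℂ)) := {q | φ q ∈ U}
  have hU' : IsOpen U' := hU.preimage hφc
  have h0 : (0 : ℂ × (Fin N → ℂ)) ∈ U' := by
    show φ 0 ∈ U
    rwa [hφ0]
  set G : Option ι → ℂ × (Fin N → ℂ) → ℂ := fun o q => o.elim (g (φ q) - g p - q.1) fun i => F i (φ q)
    with hG
  have hGd : ∀ o, DifferentiableOn ℂ (G o) U' := by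
    intro o
    cases o with
    | none =>
      exact ((hg.comp hφd.differentiableOn fun q hq => hq).sub_const _).sub
        differentiable_fst.differentiableOn
    | some i => exact (hF i).comp hφd.differentiableOn fun q hq => hq
  have hφ2 : Tendsto (fun y : Fin N → ℂ => p + e.symm y) (𝓝 0) (𝓝 p) := by
    have : Continuous fun y : Fin N → ℂ => p + e.symm y := by fun_prop
    exact this.tendsto' 0 p (by simp)
  have hfib : ∀ᶠ y in 𝓝 (0 : Fin N → ℂ), (∀ o, G o (0, y) = 0) → y = 0 := by
    filter_upwards [hφ2.eventually hiso] with y hy hyG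
    have h1 : ∀ i, F i (p + e.symm y) = 0 := fun i => hyG (some i)
    have h2 : g (p + e.symm y) - g p - 0 = 0 := hyG none
    have h3 := hy h1 (by rw [sub_zero, sub_eq_zero] at h2; exact h2)
    have h4 : e.symm y = 0 := by simpa using h3
    simpa using h4
  rcases dichotomy N (Option ι) U' G hU' h0 hGd hfib with hA | hB
  · left
    intro V hV
    obtain ⟨ε, hε, h1⟩ := Metric.eventually_nhds_iff_ball.1 (hφ2.eventually hV)
    have ht : Tendsto (fun c : ℂ => c - g p) (𝓝 (g p)) (𝓝 0) := by
      have : Continuous fun c : ℂ => c - g p := by fun_prop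
      exact this.tendsto' _ _ (by simp)
    filter_upwards [ht.eventually (hA ε hε)] with c hc
    obtain ⟨y, hy, hyU, hyG⟩ := hc
    refine ⟨p + e.symm y, h1 y (by simpa using hy), hyU, fun i => hyG (some i), ?_⟩
    have h2 : g (p + e.symm y) - g p - (c - g p) = 0 := hyG none
    have h3 : g (p + e.symm y) - c = 0 := by rw [← h2]; ring
    exact sub_eq_zero.1 h3
  · right
    have hgc : ContinuousAt g p := hg.continuousOn.continuousAt (hU.mem_nhds hp)
    have ht : Tendsto (fun x : E => (g x - g p, e (x - p))) (𝓝 p) (𝓝 0) := by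
      have h1 : Tendsto (fun x : E => g x - g p) (𝓝 p) (𝓝 0) := by
        have := hgc.tendsto.sub_const (g p)
        simpa using this
      have h2 : Tendsto (fun x : E => e (x - p)) (𝓝 p) (𝓝 0) := by
        have : Continuous fun x : E => e (x - p) := by fun_prop
        exact this.tendsto' _ _ (by simp)
      exact h1.prodMk_nhds h2
    filter_upwards [ht.eventually hB] with x hx hxF
    have h1 : φ (g x - g p, e (x - p)) = x := by simp [hφ]
    have h2 : (g x - g p, e (x - p)) = (0 : ℂ × (Fin N → ℂ)) := by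
      apply hx
      intro o
      cases o with
      | none =>
        show g (φ (g x - g p, e (x - p))) - g p - (g x - g p) = 0
        rw [h1]; ring
      | some i =>
        show F i (φ (g x - g p, e (x - p))) = 0
        rw [h1]
        exact hxF i
    have h3 : e (x - p) = 0 := congrArg Prod.snd h2
    have h4 : e (x - p) = e 0 := by rw [h3, map_zero]
    exact sub_eq_zero.1 (e.injective h4)

omit [NormedSpace ℂ E] [FiniteDimensional ℂ E] in
/-- the isolated points form a countable set -/
theorem countable_isolated [SecondCountableTopology E] (Z : Set E) :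
    (Z \ derivedSet Z).Countable := by
  have h1 : DiscreteTopology (Z \ derivedSet Z : Set E) := by
    rw [discreteTopology_subtype_iff]
    intro x hx
    have h2 : ¬ AccPt x (𝓟 Z) := hx.2
    rw [AccPt, neBot_iff, not_not] at h2
    rw [← le_bot_iff, ← h2]
    exact inf_le_inf le_rfl (principal_mono.2 sdiff_subset)
  have h2 : Countable (Z \ derivedSet Z : Set E) :=
    TopologicalSpace.separableSpace_iff_countable.1 inferInstance
  exact Set.countable_coe_iff.1 h2

theorem proper' : ProperSpace E := FiniteDimensional.proper ℂ E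

/-- the level set through a maximum of the modulus -/
theorem acc_level {ι : Type} {F : ι → E → ℂ} (hF : ∀ i, Differentiable ℂ (F i)) {g : E → ℂ}
    (hg : Differentiable ℂ g) {p : E} (hp : p ∈ derivedSet {x | ∀ i, F i x = 0})
    (hmax : ∀ q ∈ derivedSet {x | ∀ i, F i x = 0}, ‖g q‖ ≤ ‖g p‖) :
    p ∈ derivedSet {x | (∀ i, F i x = 0) ∧ g x = g p} := by
  have : ProperSpace E := proper'
  by_contra hcon
  have hiso : ∀ᶠ x in 𝓝 p, (∀ i, F i x = 0) → g x = g p → x = p := by
    rw [mem_derivedSet, accPt_iff_frequently_nhdsNE, not_frequently, eventually_nhdsWithin_iff] at hcon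
    filter_upwards [hcon] with x hx hxF hxg
    by_contra hne
    exact hx hne ⟨hxF, hxg⟩
  rcases open_or_isolated isOpen_univ (fun i => (hF i).differentiableOn) hg.differentiableOn
    (mem_univ p) hiso with hA | hB
  · have h1 := hA univ univ_mem
    obtain ⟨r, hr, h2⟩ := Metric.eventually_nhds_iff_ball.1 h1
    set Z : Set E := {x | ∀ i, F i x = 0} with hZ
    have hcount : (g '' (Z \ derivedSet Z)).Countable := (countable_isolated Z).image g
    have hdense : Dense (g '' (Z \ derivedSet Z))ᶜ := hcount.dense_compl ℂ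
    have hopen : IsOpen (ball (g p) r ∩ {c : ℂ | ‖g p‖ < ‖c‖}) :=
      isOpen_ball.inter (isOpen_lt continuous_const continuous_norm)
    have hne : (ball (g p) r ∩ {c : ℂ | ‖g p‖ < ‖c‖}).Nonempty := by
      by_cases h0 : g p = 0
      · refine ⟨((r / 2 : ℝ) : ℂ), ?_, ?_⟩
        · rw [h0, mem_ball_zero_iff, Complex.norm_real, Real.norm_eq_abs, abs_of_pos (by positivity)]
          linarith
        · show ‖g p‖ < ‖((r / 2 : ℝ) : ℂ)‖
          rw [h0, norm_zero, Complex.norm_real, Real.norm_eq_abs, abs_of_pos (by positivity)]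
          positivity
      · have hn : 0 < ‖g p‖ := norm_pos_iff.2 h0
        refine ⟨((1 + r / (2 * ‖g p‖) : ℝ) : ℂ) * g p, ?_, ?_⟩
        · rw [mem_ball, dist_eq_norm]
          have : ((1 + r / (2 * ‖g p‖) : ℝ) : ℂ) * g p - g p = ((r / (2 * ‖g p‖) : ℝ) : ℂ) * g p := by
            push_cast; ring
          rw [this, norm_mul, Complex.norm_real, Real.norm_eq_abs, abs_of_pos (by positivity)]
          field_simp
          linarith
        · show ‖g p‖ < ‖((1 + r / (2 * ‖g p‖) : ℝ) : ℂ) * g p‖
          rw [norm_mul, Complex.norm_real, Real.norm_eq_abs, abs_of_pos (by positivity)]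
          have : 0 < r / (2 * ‖g p‖) := by positivity
          nlinarith
    obtain ⟨c, hc1, hc2⟩ := hdense.inter_open_nonempty _ hopen hne
    obtain ⟨x, -, -, hx1, hx2⟩ := h2 c hc1.1
    apply hc2
    refine ⟨x, ⟨hx1, fun hxd => ?_⟩, hx2⟩
    have h3 := hmax x hxd
    rw [hx2] at h3
    exact absurd hc1.2 (not_lt.2 h3)
  · rw [mem_derivedSet, accPt_iff_frequently_nhdsNE] at hp
    obtain ⟨x, hx1, hx2⟩ := (hp.and_eventually (eventually_nhdsWithin_of_eventually_nhds hB)).and_eventually
      self_mem_nhdsWithin |>.exists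
    exact hx2 (hx1.2 hx1.1)

/-- the level sets of a list of functions -/
theorem level_list (l : List (E → ℂ)) : ∀ (_ : ∀ g ∈ l, Differentiable ℂ g) (ι : Type)
    (F : ι → E → ℂ) (_ : ∀ i, Differentiable ℂ (F i)),
    IsCompact (derivedSet {x | ∀ i, F i x = 0}) → (derivedSet {x | ∀ i, F i x = 0}).Nonempty →
    ∃ p, p ∈ derivedSet {x | (∀ i, F i x = 0) ∧ ∀ g ∈ l, g x = g p} := by
  induction l with
  | nil =>
    intro _ ι F _ _ hne
    obtain ⟨p, hp⟩ := hne
    exact ⟨p, by simpa using hp⟩
  | cons g l ih =>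
    intro hl ι F hF hc hne
    have hg : Differentiable ℂ g := hl g (by simp)
    obtain ⟨p, hp, hmax⟩ := hc.exists_isMaxOn hne hg.continuous.norm.continuousOn
    have h1 := acc_level hF hg hp (fun q hq => hmax hq)
    set F' : Option ι → E → ℂ := fun o x => o.elim (g x - g p) fun i => F i x with hF'
    have hF'd : ∀ o, Differentiable ℂ (F' o) := by
      intro o
      cases o with
      | none => exact hg.sub_const _
      | some i => exact hF i
    have hset : {x | ∀ o, F' o x = 0} = {x | (∀ i, F i x = 0) ∧ g x = g p} := by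
      ext x
      constructor
      · intro h
        exact ⟨fun i => h (some i), sub_eq_zero.1 (h none)⟩
      · rintro ⟨h2, h3⟩ o
        cases o with
        | none => exact sub_eq_zero.2 h3
        | some i => exact h2 i
    have hclosed : IsClosed {x | (∀ i, F i x = 0) ∧ g x = g p} := by
      have h1 : IsClosed {x | ∀ i, F i x = 0} := by
        have : {x | ∀ i, F i x = 0} = ⋂ i, {x | F i x = 0} := by ext; simp
        rw [this]
        exact isClosed_iInter fun i => isClosed_eq (hF i).continuous continuous_const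
      exact h1.inter (isClosed_eq hg.continuous continuous_const)
    have hsub : derivedSet {x | (∀ i, F i x = 0) ∧ g x = g p} ⊆ derivedSet {x | ∀ i, F i x = 0} :=
      derivedSet_mono _ _ fun x hx => hx.1
    obtain ⟨p', hp'⟩ := ih (fun g' hg' => hl g' (by simp [hg'])) (Option ι) F' hF'd
      (by rw [hset]; exact hc.of_isClosed_subset (isClosed_derivedSet _) hsub)
      (by rw [hset]; exact ⟨p, h1⟩)
    refine ⟨p', ?_⟩
    have h2 : p' ∈ derivedSet {x | (∀ i, F i x = 0) ∧ g x = g p} := by
      rw [← hset]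
      exact derivedSet_mono _ _ (fun x hx => hx.1) hp'
    have h3 : g p' = g p := ((isClosed_iff_derivedSet_subset _).1 hclosed h2).2
    refine derivedSet_mono _ _ ?_ hp'
    rintro x ⟨hx1, hx2⟩
    have hx3 : x ∈ {x | (∀ i, F i x = 0) ∧ g x = g p} := by rw [← hset]; exact hx1
    refine ⟨hx3.1, ?_⟩
    intro g' hg'
    rcases List.mem_cons.1 hg' with rfl | hg'
    · rw [h3]; exact hx3.2
    · exact hx2 g' hg'

/-- A set of common zeros of entire functions whose non isolated points form a compact set has
only isolated points. -/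
theorem no_compact {ι : Type} {F : ι → E → ℂ} (hF : ∀ i, Differentiable ℂ (F i))
    (hc : IsCompact (derivedSet {x | ∀ i, F i x = 0})) : derivedSet {x | ∀ i, F i x = 0} = ∅ := by
  by_contra hne
  rw [← Ne, ← nonempty_iff_ne_empty] at hne
  set N := Module.finrank ℂ E
  obtain ⟨e⟩ : Nonempty (E ≃L[ℂ] (Fin N → ℂ)) :=
    FiniteDimensional.nonempty_continuousLinearEquiv_of_finrank_eq (by simp [N])
  set l : List (E → ℂ) := List.ofFn fun k : Fin N => fun x => e x k with hl
  have hld : ∀ g ∈ l, Differentiable ℂ g := by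
    intro g hg
    rw [hl, List.mem_ofFn] at hg
    obtain ⟨k, rfl⟩ := hg
    have : Differentiable ℂ fun x : E => e x := e.differentiable
    exact fun x => (differentiableAt_pi.1 (this x)) k
  obtain ⟨p, hp⟩ := level_list l hld ι F hF hc hne
  have h1 : {x | (∀ i, F i x = 0) ∧ ∀ g ∈ l, g x = g p} ⊆ {p} := by
    rintro x ⟨-, hx⟩
    have h2 : e x = e p := by
      ext k
      exact hx (fun x => e x k) (by rw [hl, List.mem_ofFn]; exact ⟨k, rfl⟩)
    exact e.injective h2
  have h2 : p ∈ derivedSet ({p} : Set E) := derivedSet_mono _ _ h1 hp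
  rw [mem_derivedSet, accPt_iff_frequently_nhdsNE] at h2
  obtain ⟨x, hx1, hx2⟩ := (h2.and_eventually self_mem_nhdsWithin).exists
  exact hx2 hx1

/-- **Maximum principle.** An entire function which tends to zero at infinity on the set of common
zeros of a family of entire functions vanishes at the non isolated points of this set. -/
theorem vanish {ι : Type} {F : ι → E → ℂ} (hF : ∀ i, Differentiable ℂ (F i)) {G : E → ℂ}
    (hG : Differentiable ℂ G) (hc : ∀ s : ℝ, 0 < s → IsCompact {x | (∀ i, F i x = 0) ∧ s ≤ ‖G x‖})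
    {q : E} (hq : q ∈ derivedSet {x | ∀ i, F i x = 0}) : G q = 0 := by
  by_contra hne
  set Z : Set E := {x | ∀ i, F i x = 0} with hZ
  have hZc : IsClosed Z := by
    have : Z = ⋂ i, {x | F i x = 0} := by ext; simp [hZ]
    rw [this]
    exact isClosed_iInter fun i => isClosed_eq (hF i).continuous continuous_const
  have hsub : derivedSet Z ⊆ Z := (isClosed_iff_derivedSet_subset _).1 hZc
  have hs : 0 < ‖G q‖ := norm_pos_iff.2 hne
  set K : Set E := derivedSet Z ∩ {x | ‖G q‖ ≤ ‖G x‖} with hK
  have hKc : IsCompact K := by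
    refine (hc ‖G q‖ hs).of_isClosed_subset ?_ ?_
    · exact (isClosed_derivedSet _).inter (isClosed_le continuous_const hG.continuous.norm)
    · exact fun x hx => ⟨hsub hx.1, hx.2⟩
  obtain ⟨p, hp, hmax⟩ := hKc.exists_isMaxOn ⟨q, hq, le_refl ‖G q‖⟩ hG.continuous.norm.continuousOn
  have hmax' : ∀ x ∈ derivedSet Z, ‖G x‖ ≤ ‖G p‖ := by
    intro x hx
    by_cases h : ‖G q‖ ≤ ‖G x‖
    · exact hmax ⟨hx, h⟩
    · exact (not_le.1 h).le.trans hp.2
  have h1 := acc_level hF hG hp.1 hmax'
  set F' : Option ι → E → ℂ := fun o x => o.elim (G x - G p) fun i => F i x with hF'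
  have hF'd : ∀ o, Differentiable ℂ (F' o) := by
    intro o
    cases o with
    | none => exact hG.sub_const _
    | some i => exact hF i
  have hset : {x | ∀ o, F' o x = 0} = {x | (∀ i, F i x = 0) ∧ G x = G p} := by
    ext x
    constructor
    · intro h
      exact ⟨fun i => h (some i), sub_eq_zero.1 (h none)⟩
    · rintro ⟨h2, h3⟩ o
      cases o with
      | none => exact sub_eq_zero.2 h3
      | some i => exact h2 i
  have hclosed : IsClosed {x | (∀ i, F i x = 0) ∧ G x = G p} :=
    hZc.inter (isClosed_eq hG.continuous continuous_const)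
  have hcomp : IsCompact (derivedSet {x | ∀ o, F' o x = 0}) := by
    rw [hset]
    refine (hc ‖G q‖ hs).of_isClosed_subset (isClosed_derivedSet _) ?_
    intro x hx
    have := (isClosed_iff_derivedSet_subset _).1 hclosed hx
    exact ⟨this.1, by rw [this.2]; exact hp.2⟩
  have h2 := no_compact hF'd hcomp
  rw [hset] at h2
  rw [h2] at h1
  exact h1

end Pool.Agent.Helper1.AS
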