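import Pool.Agent.Helper1.AS.Factor
import Pool.Graph.R_seed8.Helper540.Holo

/-!
# Integrals depending on parameters and products over the zeros
-/

set_option autoImplicit false

open Metric Set Filter Topology Complex MeasureTheory

namespace Pool.Agent.Helper1.AS

variable {E : Type} [NormedAddCommGroup E] [NormedSpace ℂ E] [FiniteDimensional ℂ E]

/-- An integral over a circle is holomorphic in the parameters. -/
theorem diff_integral {D : Set (E × ℂ)} (hD : IsOpen D) {h : E × ℂ → ℂ}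
    (hh : DifferentiableOn ℂ h D) {V : Set E} {ρ : ℝ}
    (hVD : ∀ u ∈ V, ∀ z ∈ sphere (0 : ℂ) |ρ|, (u, z) ∈ D) :
    DifferentiableOn ℂ (fun u => ∮ z in C(0, ρ), h (u, z)) V := by
  intro u₀ hu₀
  apply DifferentiableAt.differentiableWithinAt
  have hC1 : ContDiffOn ℂ 1 h D := by
    simpa using Pool.Agent.Helper540.contDiffOn_of_differentiableOn hD hh 1
  have hcf : ContinuousOn (fderiv ℂ h) D := hC1.continuousOn_fderiv_of_isOpen hD le_rfl
  have hmem : ∀ θ : ℝ, circleMap 0 ρ θ ∈ sphere (0 : ℂ) |ρ| := fun θ => circleMap_mem_sphere' 0 ρ θ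
  -- a bound for the derivative near `u₀`
  obtain ⟨M, hM⟩ : ∃ M : ℝ, ∀ z ∈ sphere (0 : ℂ) |ρ|, ‖fderiv ℂ h (u₀, z)‖ ≤ M := by
    have h1 : ContinuousOn (fun z : ℂ => fderiv ℂ h (u₀, z)) (sphere (0 : ℂ) |ρ|) :=
      hcf.comp (by fun_prop) fun z hz => hVD u₀ hu₀ z hz
    obtain ⟨M, hM⟩ := (isCompact_sphere (0 : ℂ) |ρ|).exists_bound_of_continuousOn h1
    exact ⟨M, hM⟩
  have key : ∀ᶠ u in 𝓝 u₀, ∀ z ∈ sphere (0 : ℂ) |ρ|, (u, z) ∈ D ∧ ‖fderiv ℂ h (u, z)‖ ≤ M + 1 := by
    apply (isCompact_sphere (0 : ℂ) |ρ|).eventually_forall_of_forall_eventually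
      (P := fun u z => (u, z) ∈ D ∧ ‖fderiv ℂ h (u, z)‖ ≤ M + 1)
    intro z hz
    have hz' : (u₀, z) ∈ D := hVD u₀ hu₀ z hz
    have h2 : ContinuousAt (fun p => ‖fderiv ℂ h p‖) (u₀, z) :=
      (hcf.continuousAt (hD.mem_nhds hz')).norm
    have h3 : ∀ᶠ p in 𝓝 (u₀, z), ‖fderiv ℂ h p‖ < M + 1 :=
      h2.eventually_lt continuousAt_const (by have := hM z hz; linarith)
    filter_upwards [hD.mem_nhds hz', h3] with p hp1 hp2
    exact ⟨hp1, hp2.le⟩
  set F : E → ℝ → ℂ := fun u θ => deriv (circleMap 0 ρ) θ • h (u, circleMap 0 ρ θ) with hFdef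
  set F' : E → ℝ → E →L[ℂ] ℂ := fun u θ =>
    deriv (circleMap 0 ρ) θ • (fderiv ℂ h (u, circleMap 0 ρ θ)).comp (ContinuousLinearMap.inl ℂ E ℂ)
    with hF'def
  have hcd : Continuous (deriv (circleMap 0 ρ)) := by
    have : deriv (circleMap 0 ρ) = fun θ => circleMap 0 ρ θ * I := by
      ext θ; simp
    rw [this]
    exact (continuous_circleMap 0 ρ).mul continuous_const
  have hcF : ∀ u, (∀ z ∈ sphere (0 : ℂ) |ρ|, (u, z) ∈ D) → Continuous (F u) := by
    intro u hu
    apply hcd.smul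
    rw [← continuousOn_univ]
    exact hh.continuousOn.comp (by fun_prop) fun θ _ => hu _ (hmem θ)
  have hcF' : Continuous (F' u₀) := by
    apply hcd.smul
    have h1 : Continuous fun θ : ℝ => fderiv ℂ h (u₀, circleMap 0 ρ θ) := by
      rw [← continuousOn_univ]
      exact hcf.comp (by fun_prop) fun θ _ => hVD u₀ hu₀ _ (hmem θ)
    exact h1.clm_comp continuous_const
  have main : HasFDerivAt (fun u => ∫ θ in (0 : ℝ)..2 * Real.pi, F u θ)
      (∫ θ in (0 : ℝ)..2 * Real.pi, F' u₀ θ) u₀ := by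
    apply intervalIntegral.hasFDerivAt_integral_of_dominated_of_fderiv_le (bound := fun _ =>
      |ρ| * (M + 1)) (s := {u | ∀ z ∈ sphere (0 : ℂ) |ρ|, (u, z) ∈ D ∧ ‖fderiv ℂ h (u, z)‖ ≤ M + 1}) key
    · filter_upwards [key] with u hu
      exact (hcF u fun z hz => (hu z hz).1).aestronglyMeasurable
    · exact (hcF u₀ (hVD u₀ hu₀)).intervalIntegrable _ _
    · exact hcF'.aestronglyMeasurable
    · refine Eventually.of_forall fun θ _ u hu => ?_
      have h1 := (hu _ (hmem θ)).2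
      have h2 : ‖deriv (circleMap 0 ρ) θ‖ = |ρ| := by simp
      calc ‖F' u θ‖ = ‖deriv (circleMap 0 ρ) θ‖ *
            ‖(fderiv ℂ h (u, circleMap 0 ρ θ)).comp (ContinuousLinearMap.inl ℂ E ℂ)‖ := norm_smul _ _
        _ ≤ |ρ| * (‖fderiv ℂ h (u, circleMap 0 ρ θ)‖ * ‖ContinuousLinearMap.inl ℂ E ℂ‖) := by
          rw [h2]
          exact mul_le_mul_of_nonneg_left (ContinuousLinearMap.opNorm_comp_le _ _) (abs_nonneg _)
        _ ≤ |ρ| * ((M + 1) * 1) := by
          apply mul_le_mul_of_nonneg_left _ (abs_nonneg _)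
          apply mul_le_mul h1 (ContinuousLinearMap.norm_inl_le_one ℂ E ℂ) (norm_nonneg _)
          exact (norm_nonneg _).trans h1
        _ = |ρ| * (M + 1) := by ring
    · exact continuous_const.intervalIntegrable _ _
    · refine Eventually.of_forall fun θ _ u hu => ?_
      have h1 := (hu _ (hmem θ)).1
      have h2 : HasFDerivAt h (fderiv ℂ h (u, circleMap 0 ρ θ)) (u, circleMap 0 ρ θ) :=
        (hh.differentiableAt (hD.mem_nhds h1)).hasFDerivAt
      have h3 : HasFDerivAt (fun u : E => (u, circleMap 0 ρ θ)) (ContinuousLinearMap.inl ℂ E ℂ) u :=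
        hasFDerivAt_prodMk_left u _
      exact (h2.comp u h3).const_smul (deriv (circleMap 0 ρ) θ)
  exact main.differentiableAt

end Pool.Agent.Helper1.AS
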