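import Pool.Agent.Helper1.AS.Roots

/-!
# Projections of analytic sets with isolated fibres, and the open mapping property
-/

set_option autoImplicit false

open Metric Set Filter Topology Complex

namespace Pool.Agent.Helper1.AS

section

variable {E : Type} [NormedAddCommGroup E] [NormedSpace ℂ E] [FiniteDimensional ℂ E]

/-- **Projection.** If the fibre over `0` of the set of common zeros of a family of holomorphic
functions is isolated at `0`, then the projection of the set near `0` is again the set of common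
zeros of a family of holomorphic functions. -/
theorem project {D : Set (E × ℂ)} (hD : IsOpen D) (h0 : (0 : E × ℂ) ∈ D) {ι : Type}
    {F : ι → E × ℂ → ℂ} (hF : ∀ i, DifferentiableOn ℂ (F i) D)
    (hfib : ∀ᶠ z in 𝓝 (0 : ℂ), (∀ i, F i (0, z) = 0) → z = 0) :
    ∃ ρ₀ : ℝ, 0 < ρ₀ ∧ ∀ ρ : ℝ, 0 < ρ → ρ < ρ₀ → ∃ (r : ℝ) (R : (ι →₀ ℂ) → E → ℂ), 0 < r ∧
      (∀ t, DifferentiableOn ℂ (R t) (ball 0 r)) ∧
      (∀ u ∈ ball (0 : E) r, ∀ z ∈ closedBall (0 : ℂ) ρ, (u, z) ∈ D) ∧
      ∀ u ∈ ball (0 : E) r, ((∀ t, R t u = 0) ↔ ∃ z : ℂ, ‖z‖ < ρ ∧ ∀ i, F i (u, z) = 0) := by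
  classical
  -- a disc
  have hc0 : ContinuousAt (fun z : ℂ => ((0 : E), z)) 0 := by fun_prop
  have hD0 : ∀ᶠ z in 𝓝 (0 : ℂ), ((0 : E), z) ∈ D := hc0.eventually_mem (hD.mem_nhds h0)
  obtain ⟨ρ₁, hρ₁, h1⟩ := Metric.eventually_nhds_iff_ball.1 (hfib.and hD0)
  have hz1 : ((ρ₁ / 2 : ℝ) : ℂ) ∈ ball (0 : ℂ) ρ₁ := by
    rw [mem_ball_zero_iff, Complex.norm_real, Real.norm_eq_abs, abs_of_pos (by positivity)]
    linarith
  have hz1' : ((ρ₁ / 2 : ℝ) : ℂ) ≠ 0 := by
    exact_mod_cast (by positivity : (ρ₁ / 2 : ℝ) ≠ 0)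
  obtain ⟨i₀, hi₀⟩ : ∃ i, F i (0, ((ρ₁ / 2 : ℝ) : ℂ)) ≠ 0 := by
    by_contra hcon
    push Not at hcon
    exact hz1' ((h1 _ hz1).1 hcon)
  have han : AnalyticOnNhd ℂ (fun z => F i₀ (0, z)) (ball 0 ρ₁) :=
    analytic_slice hD (hF i₀) fun z hz => (h1 z hz).2
  have hne : ∀ᶠ z in 𝓝[≠] (0 : ℂ), F i₀ (0, z) ≠ 0 := by
    refine (han 0 (mem_ball_self hρ₁)).eventually_eq_zero_or_eventually_ne_zero.resolve_left ?_
    intro h
    have h2 := han.eqOn_zero_of_preconnected_of_eventuallyEq_zero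
      (convex_ball (0 : ℂ) ρ₁).isPreconnected (mem_ball_self hρ₁) h
    exact hi₀ (h2 hz1)
  rw [eventually_nhdsWithin_iff] at hne
  obtain ⟨ρ₂, hρ₂, h2⟩ := Metric.eventually_nhds_iff_ball.1 hne
  refine ⟨min ρ₁ ρ₂, lt_min hρ₁ hρ₂, fun ρ hρ hρlt => ?_⟩
  have hρ1 : ρ < ρ₁ := hρlt.trans_le (min_le_left _ _)
  have hρ2 : ρ < ρ₂ := hρlt.trans_le (min_le_right _ _)
  -- a neighbourhood
  have key : ∀ᶠ u in 𝓝 (0 : E), ∀ z ∈ closedBall (0 : ℂ) ρ, (u, z) ∈ D ∧
      (z ∈ sphere (0 : ℂ) ρ → F i₀ (u, z) ≠ 0) := by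
    apply (isCompact_closedBall (0 : ℂ) ρ).eventually_forall_of_forall_eventually
      (P := fun u z => (u, z) ∈ D ∧ (z ∈ sphere (0 : ℂ) ρ → F i₀ (u, z) ≠ 0))
    intro z hz
    have hz' : ((0 : E), z) ∈ D := (h1 z (closedBall_subset_ball hρ1 hz)).2
    by_cases hzs : z ∈ sphere (0 : ℂ) ρ
    · have h3 : ContinuousAt (F i₀) (0, z) := (hF i₀).continuousOn.continuousAt (hD.mem_nhds hz')
      have h4 : F i₀ (0, z) ≠ 0 := by
        apply h2 z (closedBall_subset_ball hρ2 hz)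
        rintro rfl
        rw [mem_sphere, dist_self] at hzs
        exact hρ.ne hzs
      filter_upwards [hD.mem_nhds hz', h3.eventually_ne h4] with p hp1 hp2
      exact ⟨hp1, fun _ => hp2⟩
    · have h3 : ∀ᶠ p : E × ℂ in 𝓝 (0, z), p.2 ∉ sphere (0 : ℂ) ρ := by
        have : IsOpen {p : E × ℂ | p.2 ∈ (sphere (0 : ℂ) ρ)ᶜ} :=
          isClosed_sphere.isOpen_compl.preimage continuous_snd
        exact this.mem_nhds hzs
      filter_upwards [hD.mem_nhds hz', h3] with p hp1 hp2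
      exact ⟨hp1, fun h => (hp2 h).elim⟩
  obtain ⟨r, hr, h3⟩ := Metric.eventually_nhds_iff_ball.1 key
  have hT : Tube D (F i₀) (ball 0 r) ρ :=
    ⟨hD, hF i₀, (convex_ball (0 : E) r).isPreconnected, hρ, fun u hu z hz => (h3 u hu z hz).1,
      fun u hu z hz => (h3 u hu z (sphere_subset_closedBall hz)).2 hz⟩
  obtain ⟨N, ζ, hζ⟩ := exists_roots hT
  refine ⟨r, fun t u => ∏ j, (t.sum fun i c => c * F i (u, ζ u j)), hr, ?_, ?_, ?_⟩
  · intro t
    apply prod_diff hT (g := fun p => t.sum fun i c => c * F i p) (fun u hu g hg => (hζ u hu).2.2 g hg)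
    unfold Finsupp.sum
    exact DifferentiableOn.fun_sum fun i _ => (hF i).const_mul _
  · exact fun u hu z hz => (h3 u hu z hz).1
  · intro u hu
    constructor
    · intro h
      by_contra hcon
      push Not at hcon
      have h4 : ∀ j, ∃ i, F i (u, ζ u j) ≠ 0 := fun j =>
        hcon _ (mem_ball_zero_iff.1 ((hζ u hu).1 j))
      obtain ⟨t, ht⟩ := Module.Dual.exists_forall_ne_zero_of_forall_exists (K := ℂ) (M := ι →₀ ℂ)
        (fun j => Finsupp.linearCombination ℂ (fun i => F i (u, ζ u j))) (fun j => by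
          obtain ⟨i, hi⟩ := h4 j
          exact ⟨Finsupp.single i 1, by simpa using hi⟩)
      have h5 := h t
      rw [Finset.prod_eq_zero_iff] at h5
      obtain ⟨j, -, hj⟩ := h5
      apply ht j
      rw [Finsupp.linearCombination_apply]
      simpa [smul_eq_mul] using hj
    · rintro ⟨z, hz, hzF⟩ t
      obtain ⟨j, hj⟩ := ((hζ u hu).2.1 z (by simpa using hz.le)).1 (hzF i₀)
      apply Finset.prod_eq_zero (Finset.mem_univ j)
      rw [← hj]
      simp [Finsupp.sum, hzF]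

end

/-- the linear isomorphism `(c, x), z ↦ (c, (z, x))` -/
noncomputable def assoc (k : ℕ) : (ℂ × (Fin k → ℂ)) × ℂ →L[ℂ] ℂ × (Fin (k + 1) → ℂ) :=
  ((ContinuousLinearMap.fst ℂ ℂ (Fin k → ℂ)).comp (ContinuousLinearMap.fst ℂ _ ℂ)).prod
    (ContinuousLinearMap.pi fun i => Fin.cases (ContinuousLinearMap.snd ℂ _ ℂ)
      (fun j => (ContinuousLinearMap.proj j).comp ((ContinuousLinearMap.snd ℂ ℂ (Fin k → ℂ)).comp
        (ContinuousLinearMap.fst ℂ _ ℂ))) i)

theorem assoc_apply (k : ℕ) (c : ℂ) (x : Fin k → ℂ) (z : ℂ) :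
    assoc k ((c, x), z) = (c, Fin.cons z x) := by
  unfold assoc
  ext i
  · simp
  · refine Fin.cases ?_ (fun j => ?_) i
    · simp
    · simp

theorem norm_cons_le {k : ℕ} {x : Fin k → ℂ} {z : ℂ} {ε : ℝ} (hx : ‖x‖ < ε) (hz : ‖z‖ < ε) :
    ‖(Fin.cons z x : Fin (k + 1) → ℂ)‖ < ε := by
  have hε : 0 < ε := (norm_nonneg _).trans_lt hx
  rw [pi_norm_lt_iff hε]
  intro i
  refine Fin.cases ?_ (fun j => ?_) i
  · simpa using hz
  · simpa using (norm_le_pi_norm x j).trans_lt hx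

/-- **Dichotomy.** -/
theorem dichotomy (k : ℕ) : ∀ (ι : Type) (U : Set (ℂ × (Fin k → ℂ)))
    (F : ι → ℂ × (Fin k → ℂ) → ℂ), IsOpen U → (0 : ℂ × (Fin k → ℂ)) ∈ U →
    (∀ i, DifferentiableOn ℂ (F i) U) →
    (∀ᶠ x in 𝓝 (0 : Fin k → ℂ), (∀ i, F i (0, x) = 0) → x = 0) →
    (∀ ε : ℝ, 0 < ε → ∀ᶠ c in 𝓝 (0 : ℂ), ∃ x : Fin k → ℂ, ‖x‖ < ε ∧ (c, x) ∈ U ∧ ∀ i, F i (c, x) = 0) ∨
    ∀ᶠ p in 𝓝 (0 : ℂ × (Fin k → ℂ)), (∀ i, F i p = 0) → p = 0 := by
  induction k with
  | zero =>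
    intro ι U F hU h0 hF _
    have hc0 : ContinuousAt (fun c : ℂ => (c, (0 : Fin 0 → ℂ))) 0 := by fun_prop
    obtain ⟨r, hr, h1⟩ := Metric.eventually_nhds_iff_ball.1 (hc0.eventually_mem (hU.mem_nhds h0))
    have hG : ∀ i, AnalyticOnNhd ℂ (fun c : ℂ => F i (c, 0)) (ball 0 r) := by
      intro i
      have : DifferentiableOn ℂ (fun c : ℂ => F i (c, 0)) (ball 0 r) :=
        (hF i).comp (by fun_prop) fun c hc => h1 c hc
      exact this.analyticOnNhd isOpen_ball
    by_cases hall : ∀ i, ∀ c ∈ ball (0 : ℂ) r, F i (c, 0) = 0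
    · left
      intro ε hε
      filter_upwards [ball_mem_nhds (0 : ℂ) hr] with c hc
      exact ⟨0, by rw [norm_zero]; exact hε, h1 c hc, fun i => hall i c hc⟩
    · right
      push Not at hall
      obtain ⟨i, c₁, hc₁, hne⟩ := hall
      have h2 : ∀ᶠ c in 𝓝[≠] (0 : ℂ), F i (c, 0) ≠ 0 := by
        refine (hG i 0 (mem_ball_self hr)).eventually_eq_zero_or_eventually_ne_zero.resolve_left ?_
        intro h
        exact hne ((hG i).eqOn_zero_of_preconnected_of_eventuallyEq_zero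
          (convex_ball (0 : ℂ) r).isPreconnected (mem_ball_self hr) h hc₁)
      rw [eventually_nhdsWithin_iff] at h2
      have h3 : ∀ᶠ p in 𝓝 (0 : ℂ × (Fin 0 → ℂ)), p.1 ∈ ({0}ᶜ : Set ℂ) → F i (p.1, 0) ≠ 0 :=
        (continuous_fst.tendsto' (0 : ℂ × (Fin 0 → ℂ)) 0 rfl).eventually h2
      filter_upwards [h3] with p hp hpF
      have hp2 : p.2 = 0 := Subsingleton.elim _ _
      have hp1 : p = (p.1, 0) := Prod.ext rfl hp2
      by_contra hne0
      apply hp
      · intro h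
        exact hne0 (Prod.ext h hp2)
      · rw [← hp1]
        exact hpF i
  | succ k ih =>
    intro ι U F hU h0 hF hfib
    set E := ℂ × (Fin k → ℂ)
    set D : Set (E × ℂ) := {p | assoc k p ∈ U} with hDdef
    have hD : IsOpen D := hU.preimage (assoc k).continuous
    have h0D : (0 : E × ℂ) ∈ D := by
      show assoc k 0 ∈ U
      rw [map_zero]; exact h0
    set G : ι → E × ℂ → ℂ := fun i p => F i (assoc k p) with hGdef
    have hG : ∀ i, DifferentiableOn ℂ (G i) D := fun i =>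
      (hF i).comp (assoc k).differentiable.differentiableOn fun p hp => hp
    -- the fibre
    obtain ⟨η, hη, h1⟩ := Metric.eventually_nhds_iff_ball.1 hfib
    have hfibG : ∀ᶠ z in 𝓝 (0 : ℂ), (∀ i, G i ((0 : E), z) = 0) → z = 0 := by
      filter_upwards [ball_mem_nhds (0 : ℂ) hη] with z hz hzG
      have h2 : (Fin.cons z 0 : Fin (k + 1) → ℂ) = 0 := by
        apply h1
        · rw [mem_ball_zero_iff]
          exact norm_cons_le (by simpa using hη) (by simpa using hz)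
        · intro i
          have : F i (assoc k (((0 : ℂ), (0 : Fin k → ℂ)), z)) = 0 := hzG i
          rwa [assoc_apply] at this
      have := congrFun h2 0
      simpa using this
    obtain ⟨ρ₀, hρ₀, hproj⟩ := project hD h0D hG hfibG
    -- the dichotomy for the projection
    have step : ∀ ρ : ℝ, 0 < ρ → ρ < min ρ₀ η →
        (∀ ε : ℝ, 0 < ε → ∀ᶠ c in 𝓝 (0 : ℂ), ∃ (x : Fin k → ℂ) (z : ℂ), ‖x‖ < ε ∧ ‖z‖ < ρ ∧
          ((c, x), z) ∈ D ∧ ∀ i, G i ((c, x), z) = 0) ∨
        ∀ᶠ p in 𝓝 (0 : E), ∀ z : ℂ, ‖z‖ < ρ → (∀ i, G i (p, z) = 0) → p = 0 := by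
      intro ρ hρ hρlt
      obtain ⟨r, R, hr, hR, hsub, hiff⟩ := hproj ρ hρ (hρlt.trans_le (min_le_left _ _))
      have hfibR : ∀ᶠ x in 𝓝 (0 : Fin k → ℂ), (∀ t, R t (0, x) = 0) → x = 0 := by
        filter_upwards [ball_mem_nhds (0 : Fin k → ℂ) hη, ball_mem_nhds (0 : Fin k → ℂ) hr] with x hx hxr hxR
        have hxE : ((0 : ℂ), x) ∈ ball (0 : E) r := by
          rw [mem_ball_zero_iff] at hxr ⊢
          exact max_lt (by simpa using hr) hxr
        obtain ⟨z, hz, hzG⟩ := (hiff _ hxE).1 hxR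
        have h2 : (Fin.cons z x : Fin (k + 1) → ℂ) = 0 := by
          apply h1
          · rw [mem_ball_zero_iff]
            exact norm_cons_le (by simpa using hx) (hz.trans (hρlt.trans_le (min_le_right _ _)))
          · intro i
            have : F i (assoc k (((0 : ℂ), x), z)) = 0 := hzG i
            rwa [assoc_apply] at this
        ext j
        have := congrFun h2 j.succ
        simpa using this
      rcases ih (ι →₀ ℂ) (ball 0 r) R isOpen_ball (mem_ball_self hr) hR hfibR with hA | hB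
      · left
        intro ε hε
        filter_upwards [hA ε hε] with c hc
        obtain ⟨x, hx, hxr, hxR⟩ := hc
        obtain ⟨z, hz, hzG⟩ := (hiff _ hxr).1 hxR
        exact ⟨x, z, hx, hz, hsub _ hxr z (by simpa using hz.le), hzG⟩
      · right
        filter_upwards [hB, ball_mem_nhds (0 : E) hr] with p hp hpr z hz hzG
        exact hp ((hiff p hpr).2 ⟨z, hz, hzG⟩)
    by_cases hex : ∃ ρ : ℝ, 0 < ρ ∧ ρ < min ρ₀ η ∧
        ∀ᶠ p in 𝓝 (0 : E), ∀ z : ℂ, ‖z‖ < ρ → (∀ i, G i (p, z) = 0) → p = 0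
    · right
      obtain ⟨ρ, hρ, hρlt, hev⟩ := hex
      -- coordinates
      have ht1 : Tendsto (fun q : ℂ × (Fin (k + 1) → ℂ) => ((q.1, fun j => q.2 (Fin.succ j)) : E))
          (𝓝 0) (𝓝 0) := by
        have : Continuous fun q : ℂ × (Fin (k + 1) → ℂ) => ((q.1, fun j => q.2 (Fin.succ j)) : E) := by
          fun_prop
        exact this.tendsto' _ _ rfl
      have ht2 : Tendsto (fun q : ℂ × (Fin (k + 1) → ℂ) => q.2 0) (𝓝 0) (𝓝 0) := by
        have : Continuous fun q : ℂ × (Fin (k + 1) → ℂ) => q.2 0 := by fun_prop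
        exact this.tendsto' _ _ rfl
      filter_upwards [ht1.eventually hev, ht2.eventually (ball_mem_nhds (0 : ℂ) hρ)] with q hq1 hq2 hqF
      have hq0 : q = assoc k ((q.1, fun j => q.2 (Fin.succ j)), q.2 0) := by
        rw [assoc_apply]
        refine Prod.ext rfl ?_
        ext i
        refine Fin.cases ?_ (fun j => ?_) i
        · simp
        · simp
      have h2 : ∀ i, G i ((q.1, fun j => q.2 (Fin.succ j)), q.2 0) = 0 := by
        intro i
        show F i (assoc k _) = 0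
        rw [← hq0]
        exact hqF i
      have h3 := hq1 (q.2 0) (by simpa using hq2) h2
      have h4 : q.1 = 0 := congrArg Prod.fst h3
      have h5 : (fun j : Fin k => q.2 (Fin.succ j)) = 0 := congrArg Prod.snd h3
      have h6 : q.2 = Fin.cons (q.2 0) 0 := by
        ext i
        refine Fin.cases ?_ (fun j => ?_) i
        · simp
        · simpa using congrFun h5 j
      have h7 : q.2 = 0 := by
        apply h1
        · rw [mem_ball_zero_iff, h6]
          apply norm_cons_le (by simpa using hη)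
          have := hρlt.trans_le (min_le_right _ _)
          have hq2' : ‖q.2 0‖ < ρ := mem_ball_zero_iff.1 hq2
          linarith
        · intro i
          have := hqF i
          rwa [show q = ((0 : ℂ), q.2) from Prod.ext h4 rfl] at this
      exact Prod.ext h4 h7
    · left
      intro ε hε
      set ρ := min (min ρ₀ η) ε / 2 with hρdef
      have hm : 0 < min (min ρ₀ η) ε := lt_min (lt_min hρ₀ hη) hε
      have hρ : 0 < ρ := by positivity
      have hρ1 : ρ < min ρ₀ η := by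
        have := min_le_left (min ρ₀ η) ε
        linarith
      have hρ2 : ρ < ε := by
        have := min_le_right (min ρ₀ η) ε
        linarith
      rcases step ρ hρ hρ1 with hA | hB
      · filter_upwards [hA ε hε] with c hc
        obtain ⟨x, z, hx, hz, hxD, hxG⟩ := hc
        refine ⟨Fin.cons z x, norm_cons_le hx (hz.trans hρ2), ?_, fun i => ?_⟩
        · have : assoc k ((c, x), z) ∈ U := hxD
          rwa [assoc_apply] at this
        · have : F i (assoc k ((c, x), z)) = 0 := hxG i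
          rwa [assoc_apply] at this
      · exact (hex ⟨ρ, hρ, hρ1, hB⟩).elim

end Pool.Agent.Helper1.AS
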