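import Pool.Agent.Helper1.AS.Param

/-!
# The product of the values of a holomorphic function at the zeros of another one
-/

set_option autoImplicit false

open Metric Set Filter Topology Complex MeasureTheory

namespace Pool.Agent.Helper1.AS

variable {E : Type} [NormedAddCommGroup E] [NormedSpace ℂ E] [FiniteDimensional ℂ E]

omit [FiniteDimensional ℂ E] in
theorem analytic_slice {D : Set (E × ℂ)} (hD : IsOpen D) {g : E × ℂ → ℂ}
    (hg : DifferentiableOn ℂ g D) {u : E} {K : Set ℂ} (hK : ∀ z ∈ K, (u, z) ∈ D) :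
    AnalyticOnNhd ℂ (fun z => g (u, z)) K := by
  intro z hz
  have hO : IsOpen {z : ℂ | (u, z) ∈ D} := hD.preimage (by fun_prop)
  have h1 : DifferentiableOn ℂ (fun z => g (u, z)) {z : ℂ | (u, z) ∈ D} := by
    intro w hw
    exact (hg.differentiableAt (hD.mem_nhds hw)).comp w (by fun_prop : DifferentiableAt ℂ
      (fun z : ℂ => (u, z)) w) |>.differentiableWithinAt
  exact h1.analyticAt (hO.mem_nhds (hK z hz))

omit [FiniteDimensional ℂ E] in
theorem deriv_slice {D : Set (E × ℂ)} (hD : IsOpen D) {g : E × ℂ → ℂ}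
    (hg : DifferentiableOn ℂ g D) {u : E} {z : ℂ} (hz : (u, z) ∈ D) :
    deriv (fun z => g (u, z)) z = fderiv ℂ g (u, z) (0, 1) := by
  have h1 : HasFDerivAt g (fderiv ℂ g (u, z)) (u, z) :=
    (hg.differentiableAt (hD.mem_nhds hz)).hasFDerivAt
  have h2 : HasDerivAt (fun z : ℂ => (u, z)) ((0 : E), (1 : ℂ)) z :=
    (hasDerivAt_const z u).prodMk (hasDerivAt_id z)
  exact (h1.comp_hasDerivAt z h2).deriv

/-- The data `f`, without zeros on `V × {|z| = ρ}` -/
structure Tube (D : Set (E × ℂ)) (f : E × ℂ → ℂ) (V : Set E) (ρ : ℝ) : Prop where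
  openD : IsOpen D
  diff : DifferentiableOn ℂ f D
  conn : IsPreconnected V
  pos : 0 < ρ
  sub : ∀ u ∈ V, ∀ z ∈ closedBall (0 : ℂ) ρ, (u, z) ∈ D
  ne : ∀ u ∈ V, ∀ z ∈ sphere (0 : ℂ) ρ, f (u, z) ≠ 0

variable {D : Set (E × ℂ)} {f : E × ℂ → ℂ} {V : Set E} {ρ : ℝ}

/-- the integral which gives the sum of the values of `g` at the zeros -/
noncomputable def S (f g : E × ℂ → ℂ) (ρ : ℝ) (u : E) : ℂ :=
  ∮ z in C(0, ρ), g (u, z) * (fderiv ℂ f (u, z) (0, 1) / f (u, z))

theorem S_diff (hT : Tube D f V ρ) {g : E × ℂ → ℂ} (hg : DifferentiableOn ℂ g D) :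
    DifferentiableOn ℂ (S f g ρ) V := by
  have hO : IsOpen {p ∈ D | f p ≠ 0} :=
    hT.diff.continuousOn.isOpen_inter_preimage hT.openD isOpen_ne
  have h1 : DifferentiableOn ℂ (fun p : E × ℂ => g p * (fderiv ℂ f p (0, 1) / f p))
      {p ∈ D | f p ≠ 0} := by
    apply (hg.mono fun p hp => hp.1).mul
    have e1 : (fun p : E × ℂ => fderiv ℂ f p (0, 1) / f p) =
        fun p : E × ℂ => fderiv ℂ f p (0, 1) * (f p)⁻¹ := funext fun p => div_eq_mul_inv _ _
    rw [e1]
    exact ((Pool.Agent.Helper540.differentiableOn_fderiv_apply hT.openD hT.diff (0, 1)).mono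
      fun p hp => hp.1).mul ((hT.diff.mono fun p hp => hp.1).inv fun p hp => hp.2)
  exact diff_integral hO h1 fun u hu z hz => by
    rw [abs_of_pos hT.pos] at hz
    exact ⟨hT.sub u hu z (sphere_subset_closedBall hz), hT.ne u hu z hz⟩

/-- For every `u` there is a family of zeros. -/
theorem exists_at (hT : Tube D f V ρ) {u : E} (hu : u ∈ V) :
    ∃ (d : ℕ) (ζ : Fin d → ℂ), (∀ j, ζ j ∈ ball (0 : ℂ) ρ) ∧
      (∀ z ∈ closedBall (0 : ℂ) ρ, f (u, z) = 0 ↔ ∃ j, z = ζ j) ∧
      ∀ g : E × ℂ → ℂ, DifferentiableOn ℂ g D → S f g ρ u = 2 * Real.pi * I * ∑ j, g (u, ζ j) := by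
  obtain ⟨d, ζ, h, h1, h2, h3, h4⟩ := factor hT.pos (analytic_slice hT.openD hT.diff (hT.sub u hu))
    (hT.ne u hu)
  refine ⟨d, ζ, h1, ?_, ?_⟩
  · intro z hz
    rw [h4 z, mul_eq_zero, or_iff_left (h3 z hz), Finset.prod_eq_zero_iff]
    simp [sub_eq_zero]
  · intro g hg
    rw [← integral_eq hT.pos h1 h2 h3 h4 (analytic_slice hT.openD hg (hT.sub u hu)), S]
    apply circleIntegral.integral_congr hT.pos.le
    intro z hz
    simp only
    rw [deriv_slice hT.openD hT.diff (hT.sub u hu z (sphere_subset_closedBall hz))]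

theorem exists_roots (hT : Tube D f V ρ) :
    ∃ (N : ℕ) (ζ : E → Fin N → ℂ), ∀ u ∈ V, (∀ j, ζ u j ∈ ball (0 : ℂ) ρ) ∧
      (∀ z ∈ closedBall (0 : ℂ) ρ, f (u, z) = 0 ↔ ∃ j, z = ζ u j) ∧
      ∀ g : E × ℂ → ℂ, DifferentiableOn ℂ g D →
        S f g ρ u = 2 * Real.pi * I * ∑ j, g (u, ζ u j) := by
  classical
  rcases V.eq_empty_or_nonempty with rfl | ⟨u₀, hu₀⟩
  · exact ⟨0, fun _ j => j.elim0, fun u hu => hu.elim⟩
  have h2pi : (2 * Real.pi * I : ℂ) ≠ 0 := by
    simp [Real.pi_ne_zero, I_ne_zero]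
  obtain ⟨N, ζ₀, hζ₀⟩ := exists_at hT hu₀
  have hone : DifferentiableOn ℂ (fun _ : E × ℂ => (1 : ℂ)) D := differentiableOn_const _
  have hcard : ∀ u ∈ V, ∀ (d : ℕ) (ζ : Fin d → ℂ),
      (∀ g : E × ℂ → ℂ, DifferentiableOn ℂ g D → S f g ρ u = 2 * Real.pi * I * ∑ j, g (u, ζ j)) →
      (S f (fun _ => 1) ρ u / (2 * Real.pi * I)).re = d := by
    intro u hu d ζ h
    rw [h _ hone]
    rw [mul_div_cancel_left₀ _ h2pi]
    simp
  have hcont : ContinuousOn (fun u => (S f (fun _ => 1) ρ u / (2 * Real.pi * I)).re) V := by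
    apply Complex.continuous_re.comp_continuousOn
    exact (S_diff hT hone).continuousOn.div_const _
  have hN : ∀ u ∈ V, ∀ (d : ℕ) (ζ : Fin d → ℂ),
      (∀ g : E × ℂ → ℂ, DifferentiableOn ℂ g D → S f g ρ u = 2 * Real.pi * I * ∑ j, g (u, ζ j)) →
      d = N := by
    intro u hu d ζ h
    have h1 := hcard u hu d ζ h
    have h2 := hcard u₀ hu₀ N ζ₀ hζ₀.2.2
    by_contra hne
    -- an intermediate value which is not an integer
    have hval : ∀ x : ℝ, x ∈ (fun u => (S f (fun _ => 1) ρ u / (2 * Real.pi * I)).re) '' V →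
        ∃ n : ℕ, x = n := by
      rintro x ⟨v, hv, rfl⟩
      obtain ⟨d', ζ', hζ'⟩ := exists_at hT hv
      exact ⟨d', hcard v hv d' ζ' hζ'.2.2⟩
    rcases lt_or_gt_of_ne hne with hlt | hlt
    · have hiv := hT.conn.intermediate_value hu hu₀ hcont
      simp only [h1, h2] at hiv
      have h3 : ((d : ℝ) + 1 / 2) ∈ Icc (d : ℝ) N := by
        have : ((d + 1 : ℕ) : ℝ) ≤ N := by exact_mod_cast hlt
        push_cast at this
        constructor <;> linarith
      obtain ⟨n, hn⟩ := hval _ (hiv h3)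
      have h4 : (2 * d + 1 : ℤ) = 2 * n := by
        have : (2 * (d : ℝ) + 1) = 2 * n := by linarith
        exact_mod_cast this
      omega
    · have hiv := hT.conn.intermediate_value hu₀ hu hcont
      simp only [h1, h2] at hiv
      have h3 : ((N : ℝ) + 1 / 2) ∈ Icc (N : ℝ) d := by
        have : ((N + 1 : ℕ) : ℝ) ≤ d := by exact_mod_cast hlt
        push_cast at this
        constructor <;> linarith
      obtain ⟨n, hn⟩ := hval _ (hiv h3)
      have h4 : (2 * N + 1 : ℤ) = 2 * n := by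
        have : (2 * (N : ℝ) + 1) = 2 * n := by linarith
        exact_mod_cast this
      omega
  have hex : ∀ u, u ∈ V → ∃ ζ : Fin N → ℂ, (∀ j, ζ j ∈ ball (0 : ℂ) ρ) ∧
      (∀ z ∈ closedBall (0 : ℂ) ρ, f (u, z) = 0 ↔ ∃ j, z = ζ j) ∧
      ∀ g : E × ℂ → ℂ, DifferentiableOn ℂ g D →
        S f g ρ u = 2 * Real.pi * I * ∑ j, g (u, ζ j) := by
    intro u hu
    obtain ⟨d, ζ, h⟩ := exists_at hT hu
    obtain rfl := hN u hu d ζ h.2.2
    exact ⟨ζ, h⟩
  choose ζ hζ using hex
  refine ⟨N, fun u => if hu : u ∈ V then ζ u hu else fun _ => 0, fun u hu => ?_⟩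
  simp only [dif_pos hu]
  exact hζ u hu

/-- **The product of the values at the zeros is holomorphic.** -/
theorem prod_diff (hT : Tube D f V ρ) {N : ℕ} {ζ : E → Fin N → ℂ}
    (hζ : ∀ u ∈ V, ∀ g : E × ℂ → ℂ, DifferentiableOn ℂ g D →
        S f g ρ u = 2 * Real.pi * I * ∑ j, g (u, ζ u j)) {g : E × ℂ → ℂ}
    (hg : DifferentiableOn ℂ g D) :
    DifferentiableOn ℂ (fun u => ∏ j, g (u, ζ u j)) V := by
  have h2pi : (2 * Real.pi * I : ℂ) ≠ 0 := by
    simp [Real.pi_ne_zero, I_ne_zero]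
  have hp : ∀ k : ℕ, DifferentiableOn ℂ (fun u => ∑ j, g (u, ζ u j) ^ k) V := by
    intro k
    have h1 : DifferentiableOn ℂ (fun p => g p ^ k) D := hg.fun_pow k
    have h2 : DifferentiableOn ℂ (fun u => (2 * Real.pi * I : ℂ)⁻¹ * S f (fun p => g p ^ k) ρ u) V :=
      (S_diff hT h1).const_mul _
    refine h2.congr fun u hu => ?_
    rw [hζ u hu _ h1, ← mul_assoc, inv_mul_cancel₀ h2pi, one_mul]
  have he : ∀ k : ℕ, DifferentiableOn ℂ
      (fun u => MvPolynomial.aeval (fun j => g (u, ζ u j)) (MvPolynomial.esymm (Fin N) ℂ k)) V := by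
    intro k
    induction k using Nat.strong_induction_on with
    | _ k ih =>
      rcases Nat.eq_zero_or_pos k with rfl | hk
      · simp only [MvPolynomial.esymm_zero, map_one]
        exact differentiableOn_const _
      · have hk' : (k : ℂ) ≠ 0 := by exact_mod_cast hk.ne'
        have key : ∀ u, MvPolynomial.aeval (fun j => g (u, ζ u j)) (MvPolynomial.esymm (Fin N) ℂ k) =
            (k : ℂ)⁻¹ * ((-1) ^ (k + 1) * ∑ a ∈ Finset.HasAntidiagonal.antidiagonal k with a.1 < k, (-1) ^ a.1 *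
              MvPolynomial.aeval (fun j => g (u, ζ u j)) (MvPolynomial.esymm (Fin N) ℂ a.1) *
                ∑ j, g (u, ζ u j) ^ a.2) := by
          intro u
          have h1 := congrArg (MvPolynomial.aeval (fun j => g (u, ζ u j)))
            (MvPolynomial.mul_esymm_eq_sum (Fin N) ℂ k)
          simp only [map_mul, map_natCast, map_pow, map_neg, map_one, map_sum,
            MvPolynomial.psum, MvPolynomial.aeval_X] at h1
          rw [← h1, ← mul_assoc, inv_mul_cancel₀ hk', one_mul]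
        simp only [key]
        apply DifferentiableOn.const_mul
        apply DifferentiableOn.const_mul
        apply DifferentiableOn.fun_sum
        intro a ha
        simp only [Finset.mem_filter] at ha
        exact ((ih a.1 ha.2).const_mul _).mul (hp a.2)
  have h3 := he N
  refine h3.congr fun u _ => ?_
  rw [MvPolynomial.esymm]
  have : Finset.powersetCard N (Finset.univ : Finset (Fin N)) = {Finset.univ} := by
    have := Finset.powersetCard_self (Finset.univ : Finset (Fin N))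
    rwa [Finset.card_univ, Fintype.card_fin] at this
  rw [this]
  simp

end Pool.Agent.Helper1.AS
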